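import Pool.Agent.R598.SY.T_ZF
import Pool.Agent.R598.SY.T_TRU
import Pool.Agent.R598.SY.T_SEP

/-!
# The notion of forcing that adds generic reals by shrinking rational intervals
-/

set_option autoImplicit false

namespace Pool.Agent.R602.CO

open Pool.Agent.W868 Pool.Agent.W868.PName Pool.Agent.R598.SY
open ZFSet (pair)

/-- A condition: finitely many promises `(i, a, b)`, that is, `a < r i < b`. -/
structure Cd : Type where
  /-- the promises -/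
  s : Set (ℕ × ℚ × ℚ)
  fin : s.Finite
  co : ∀ i a b c d, (i, a, b) ∈ s → (i, c, d) ∈ s → a < d

theorem Cd.ext' {p q : Cd} (h : p.s = q.s) : p = q := by
  cases p
  cases q
  congr

instance : Preorder Cd where
  le p q := q.s ⊆ p.s
  le_refl _ := subset_rfl
  le_trans _ _ _ h h' := h'.trans h

instance : OrderTop Cd where
  top := ⟨∅, Set.finite_empty, fun _ _ _ _ _ h => h.elim⟩
  le_top _ := Set.empty_subset _

theorem le_def {p q : Cd} : p ≤ q ↔ q.s ⊆ p.s := Iff.rfl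

theorem top_s : (⊤ : Cd).s = ∅ := rfl

/-- The action on the conditions. -/
def mv (ρ : Equiv.Perm ℕ) (p : Cd) : Cd where
  s := {x | (ρ.symm x.1, x.2) ∈ p.s}
  fin := by
    refine p.fin.preimage (f := fun x : ℕ × ℚ × ℚ => (ρ.symm x.1, x.2)) ?_
    rintro ⟨a, x⟩ - ⟨b, y⟩ - h
    obtain ⟨h1, h2⟩ := Prod.mk.inj h
    exact Prod.ext (ρ.symm.injective h1) h2
  co i a b c d := p.co (ρ.symm i) a b c d

theorem mem_mv {ρ : Equiv.Perm ℕ} {p : Cd} {x : ℕ × ℚ × ℚ} :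
    x ∈ (mv ρ p).s ↔ (ρ.symm x.1, x.2) ∈ p.s := Iff.rfl

theorem mv_le {ρ : Equiv.Perm ℕ} {p q : Cd} (h : p ≤ q) : mv ρ p ≤ mv ρ q :=
  fun _ hx => h hx

theorem mv_mul (ρ τ : Equiv.Perm ℕ) (p : Cd) : mv (ρ * τ) p = mv ρ (mv τ p) := rfl

theorem mv_one (p : Cd) : mv 1 p = p := rfl

theorem mv_symm_mv (ρ : Equiv.Perm ℕ) (p : Cd) : mv ρ.symm (mv ρ p) = p := by
  refine Cd.ext' (Set.ext fun x => ?_)
  rw [mem_mv, mem_mv]
  simp

theorem mv_mv_symm (ρ : Equiv.Perm ℕ) (p : Cd) : mv ρ (mv ρ.symm p) = p := by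
  refine Cd.ext' (Set.ext fun x => ?_)
  rw [mem_mv, mem_mv]
  simp

/-- The action. -/
def acH : Equiv.Perm ℕ →* (Cd ≃o Cd) where
  toFun ρ :=
    { toFun := mv ρ
      invFun := mv ρ.symm
      left_inv := mv_symm_mv ρ
      right_inv := mv_mv_symm ρ
      map_rel_iff' := by
        intro p q
        constructor
        · intro h
          have h1 := mv_le (ρ := ρ.symm) h
          simp only [Equiv.coe_fn_mk] at h1
          rwa [mv_symm_mv, mv_symm_mv] at h1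
        · exact mv_le }
  map_one' := by
    ext p
    rfl
  map_mul' := by
    intro ρ τ
    ext p
    rfl

/-- The pointwise stabilizer of a finite set. -/
def fixE (E : Finset ℕ) : Subgroup (Equiv.Perm ℕ) where
  carrier := {ρ | ∀ a ∈ E, ρ a = a}
  mul_mem' := by
    intro ρ τ hρ hτ a ha
    change ρ (τ a) = a
    rw [hτ a ha, hρ a ha]
  one_mem' := fun a _ => rfl
  inv_mem' := by
    intro ρ hρ a ha
    change ρ⁻¹ a = a
    rw [Equiv.Perm.inv_eq_iff_eq, hρ a ha]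

theorem mem_fixE {E : Finset ℕ} {ρ : Equiv.Perm ℕ} : ρ ∈ fixE E ↔ ∀ a ∈ E, ρ a = a := Iff.rfl

open Classical in
/-- The symmetric system. -/
def sys : Sys Cd where
  G := Equiv.Perm ℕ
  grp := inferInstance
  ac := acH
  top := by
    intro ρ
    exact Cd.ext' rfl
  F := Set.range fixE
  ne := ⟨_, ⟨∅, rfl⟩⟩
  conj := by
    rintro _ ⟨E, rfl⟩ g
    refine ⟨_, ⟨E.image g, rfl⟩, fun k hk a ha => ?_⟩
    have h1 := hk (g a) (Finset.mem_image_of_mem _ ha)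
    change g.symm (k (g a)) = a
    rw [h1, Equiv.symm_apply_apply]
  dir := by
    rintro _ ⟨E, rfl⟩ _ ⟨E', rfl⟩
    refine ⟨_, ⟨E ∪ E', rfl⟩, fun ρ hρ a ha => ?_, fun ρ hρ a ha => ?_⟩
    · exact hρ a (Finset.mem_union_left _ ha)
    · exact hρ a (Finset.mem_union_right _ ha)

theorem ac_apply (ρ : Equiv.Perm ℕ) (p : Cd) : sys.ac ρ p = mv ρ p := rfl

/-! ### Codes of rationals and of reals -/

/-- The code of a rational number, a natural number (in the sense of set theory). -/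
noncomputable def code (q : ℚ) : ZFSet.{0} := nat (Denumerable.eqv ℚ q)

theorem code_inj {p q : ℚ} (h : code p = code q) : p = q :=
  (Denumerable.eqv ℚ).injective (nat_injective h)

theorem code_mem_omega (q : ℚ) : code q ∈ ZFSet.omega := mem_omega_iff.2 ⟨_, rfl⟩

theorem exists_code {z : ZFSet.{0}} (h : z ∈ ZFSet.omega) : ∃ q, z = code q := by
  obtain ⟨n, rfl⟩ := mem_omega_iff.1 h
  refine ⟨(Denumerable.eqv ℚ).symm n, ?_⟩
  rw [code, Equiv.apply_symm_apply]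

/-- The Dedekind cut of the real number `x`, with rational numbers coded by natural numbers. -/
noncomputable def cut (x : ℝ) : ZFSet.{0} :=
  ZFSet.sep (fun z => ∃ q : ℚ, (q : ℝ) < x ∧ z = code q) ZFSet.omega

theorem mem_cut {x : ℝ} {z : ZFSet.{0}} : z ∈ cut x ↔ ∃ q : ℚ, (q : ℝ) < x ∧ z = code q := by
  rw [cut, ZFSet.mem_sep]
  constructor
  · exact fun h => h.2
  · rintro ⟨q, hq, rfl⟩
    exact ⟨code_mem_omega q, q, hq, rfl⟩

theorem code_mem_cut {x : ℝ} {q : ℚ} : code q ∈ cut x ↔ (q : ℝ) < x := by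
  rw [mem_cut]
  constructor
  · rintro ⟨p, hp, h⟩
    rwa [code_inj h]
  · exact fun h => ⟨q, h, rfl⟩

theorem cut_subset_cut {x y : ℝ} : cut x ⊆ cut y ↔ x ≤ y := by
  constructor
  · intro h
    by_contra hc
    obtain ⟨q, h1, h2⟩ := exists_rat_btwn (not_le.1 hc)
    exact absurd (code_mem_cut.1 (h (code_mem_cut.2 h2))) (not_lt.2 h1.le)
  · intro h z hz
    obtain ⟨q, hq, rfl⟩ := mem_cut.1 hz
    exact code_mem_cut.2 (hq.trans_le h)

theorem cut_inj {x y : ℝ} (h : cut x = cut y) : x = y :=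
  le_antisymm (cut_subset_cut.1 (h ▸ fun _ hz => hz)) (cut_subset_cut.1 (h ▸ fun _ hz => hz))

/-! ### The names -/

/-- A condition with a single promise. -/
def sg (i : ℕ) (a b : ℚ) (h : a < b) : Cd where
  s := {(i, a, b)}
  fin := Set.finite_singleton _
  co := by
    intro j c d e f h1 h2
    rw [Set.mem_singleton_iff] at h1 h2
    simp only [Prod.mk.injEq] at h1 h2
    obtain ⟨-, rfl, -⟩ := h1
    obtain ⟨-, -, rfl⟩ := h2
    exact h

theorem le_sg {p : Cd} {i : ℕ} {a b : ℚ} {h : a < b} : p ≤ sg i a b h ↔ (i, a, b) ∈ p.s := by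
  constructor
  · intro h1
    exact h1 rfl
  · intro h1 x hx
    rw [show x = (i, a, b) from hx]
    exact h1

/-- The name for the generic real `i`. -/
noncomputable def cN (i : ℕ) : PName Cd :=
  PName.mk {t : ℚ × ℚ × ℚ // t.1 ≤ t.2.1 ∧ t.2.1 < t.2.2} (fun t => check (code t.1.1))
    (fun t => sg i t.1.2.1 t.1.2.2 t.2.2)

/-- The name for the set of the generic reals. -/
noncomputable def DN : PName Cd := PName.mk ℕ cN (fun _ => ⊤)

/-- The name for the set of the rational intervals around the generic real `i`. -/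
noncomputable def IN (i : ℕ) : PName Cd :=
  PName.mk {t : (ℚ × ℚ) × ℚ × ℚ // t.1.1 ≤ t.2.1 ∧ t.2.1 < t.2.2 ∧ t.2.2 ≤ t.1.2}
    (fun t => opN (check (code t.1.1.1)) (check (code t.1.1.2)))
    (fun t => sg i t.1.2.1 t.1.2.2 t.2.2.1)

theorem el_cN {i : ℕ} {z : PName Cd} {c : Cd} :
    El (cN i) z c ↔ ∃ q a b, q ≤ a ∧ ∃ h : a < b, z = check (code q) ∧ c = sg i a b h := by
  rw [cN, el_mk]
  constructor
  · rintro ⟨⟨⟨q, a, b⟩, h1, h2⟩, rfl, rfl⟩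
    exact ⟨q, a, b, h1, h2, rfl, rfl⟩
  · rintro ⟨q, a, b, h1, h2, rfl, rfl⟩
    exact ⟨⟨⟨q, a, b⟩, h1, h2⟩, rfl, rfl⟩

theorem el_DN {z : PName Cd} {c : Cd} : El DN z c ↔ ∃ i, z = cN i ∧ c = ⊤ := by
  rw [DN, el_mk]
  constructor
  · rintro ⟨n, rfl, rfl⟩
    exact ⟨n, rfl, rfl⟩
  · rintro ⟨n, rfl, rfl⟩
    exact ⟨n, rfl, rfl⟩

theorem el_IN {i : ℕ} {z : PName Cd} {c : Cd} :
    El (IN i) z c ↔ ∃ a b c' d', a ≤ c' ∧ (∃ h : c' < d', d' ≤ b ∧ c = sg i c' d' h) ∧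
      z = opN (check (code a)) (check (code b)) := by
  rw [IN, el_mk]
  constructor
  · rintro ⟨⟨⟨⟨a, b⟩, c', d'⟩, h1, h2, h3⟩, rfl, rfl⟩
    exact ⟨a, b, c', d', h1, ⟨h2, h3, rfl⟩, rfl⟩
  · rintro ⟨a, b, c', d', h1, ⟨h2, h3, rfl⟩, rfl⟩
    exact ⟨⟨⟨⟨a, b⟩, c', d'⟩, h1, h2, h3⟩, rfl, rfl⟩

theorem mv_sg (ρ : Equiv.Perm ℕ) (i : ℕ) (a b : ℚ) (h : a < b) :
    mv ρ (sg i a b h) = sg (ρ i) a b h := by
  refine Cd.ext' (Set.ext fun x => ?_)
  obtain ⟨c, m⟩ := x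
  rw [mem_mv]
  change (ρ.symm c, m) = (i, a, b) ↔ (c, m) = (ρ i, a, b)
  constructor
  · intro h
    obtain ⟨h1, h2⟩ := Prod.mk.inj h
    rw [← h1, Equiv.apply_symm_apply, h2]
  · intro h
    obtain ⟨h1, h2⟩ := Prod.mk.inj h
    rw [h1, Equiv.symm_apply_apply, h2]

theorem act_cN (ρ : Equiv.Perm ℕ) (i : ℕ) : act (sys.ac ρ) (cN i) = cN (ρ i) := by
  unfold cN act
  congr 1
  · funext n
    exact act_check (sys.top ρ) _
  · funext n
    exact mv_sg _ _ _ _ _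

theorem act_DN (ρ : Equiv.Perm ℕ) (p : Cd) : Feq (act (sys.ac ρ) DN) DN p := by
  refine feq_of_el fun z c => ?_
  rw [el_act, el_DN]
  constructor
  · rintro ⟨z, c, hz, rfl, rfl⟩
    obtain ⟨i, rfl, rfl⟩ := el_DN.1 hz
    exact ⟨ρ i, act_cN ρ i, sys.top ρ⟩
  · rintro ⟨i, rfl, rfl⟩
    refine ⟨cN (ρ.symm i), ⊤, el_DN.2 ⟨_, rfl, rfl⟩, ?_, (sys.top ρ).symm⟩
    rw [act_cN, Equiv.apply_symm_apply]

theorem hs_cN (i : ℕ) : sys.HS (cN i) := by
  refine sys.hs_iff.2 ⟨⟨_, ⟨{i}, rfl⟩, fun (ρ : Equiv.Perm ℕ) hρ p => ?_⟩, fun z c hz => ?_⟩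
  · have h1 : ρ i = i := hρ i (Finset.mem_singleton_self i)
    have h2 : act (sys.ac ρ) (cN i) = cN i := (act_cN ρ i).trans (by rw [h1])
    rw [h2]
    exact Feq.refl _ _
  · obtain ⟨q, a, b, -, -, rfl, -⟩ := el_cN.1 hz
    exact sys.hs_check _

theorem hs_DN : sys.HS DN := by
  refine sys.hs_iff.2 ⟨⟨_, ⟨∅, rfl⟩, fun ρ _ p => act_DN ρ p⟩, fun z c hz => ?_⟩
  obtain ⟨n, rfl, rfl⟩ := el_DN.1 hz
  exact hs_cN _

theorem exists_supp {π : Pkg Cd} {x : ZFSet.{0}} (hx : x ∈ sys.Ms π) :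
    ∃ t ∈ π.N, π.val t = x ∧ ∃ E, sys.Fix (fixE E) t := by
  obtain ⟨t, ⟨ht, hs⟩, rfl⟩ := hx
  obtain ⟨_, ⟨E, rfl⟩, hE⟩ := hs.sym
  exact ⟨t, ht, rfl, E, hE⟩

/-! ### Conditions -/

/-- A rational interval in which the real `i` can still be. -/
theorem Cd.exists_box (p : Cd) (i : ℕ) (T : Finset ℚ) (hT : ∀ t ∈ T, ∀ a b, (i, a, b) ∈ p.s → t < b) :
    ∃ c d : ℚ, c < d ∧ (∀ t ∈ T, t < c) ∧ ∀ a b, (i, a, b) ∈ p.s → a < c ∧ d < b := by
  classical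
  have f1 : ((fun x : ℕ × ℚ × ℚ => x.2.1) '' {x | x ∈ p.s ∧ x.1 = i}).Finite :=
    (p.fin.subset fun _ hx => hx.1).image _
  have f2 : ((fun x : ℕ × ℚ × ℚ => x.2.2) '' {x | x ∈ p.s ∧ x.1 = i}).Finite :=
    (p.fin.subset fun _ hx => hx.1).image _
  have m1 : ∀ a, a ∈ f1.toFinset ↔ ∃ b, (i, a, b) ∈ p.s := by
    intro a
    rw [Set.Finite.mem_toFinset]
    constructor
    · rintro ⟨⟨j, a, b⟩, ⟨h1, h2⟩, rfl⟩
      simp only at h2
      subst h2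
      exact ⟨b, h1⟩
    · rintro ⟨b, hb⟩
      exact ⟨(i, a, b), ⟨hb, rfl⟩, rfl⟩
  have m2 : ∀ b, b ∈ f2.toFinset ↔ ∃ a, (i, a, b) ∈ p.s := by
    intro b
    rw [Set.Finite.mem_toFinset]
    constructor
    · rintro ⟨⟨j, a, b⟩, ⟨h1, h2⟩, rfl⟩
      simp only at h2
      subst h2
      exact ⟨a, h1⟩
    · rintro ⟨a, hb⟩
      exact ⟨(i, a, b), ⟨hb, rfl⟩, rfl⟩
  obtain ⟨c, hc1, hc2⟩ := Order.exists_between_finsets (f1.toFinset ∪ T) f2.toFinset (by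
    intro x hx y hy
    obtain ⟨a, ha⟩ := (m2 y).1 hy
    rcases Finset.mem_union.1 hx with hx | hx
    · obtain ⟨b, hb⟩ := (m1 x).1 hx
      exact p.co _ _ _ _ _ hb ha
    · exact hT x hx a y ha)
  obtain ⟨d, hd1, hd2⟩ := Order.exists_between_finsets ({c} : Finset ℚ) f2.toFinset (by
    intro x hx y hy
    rw [Finset.mem_singleton.1 hx]
    exact hc2 y hy)
  refine ⟨c, d, hd1 c (Finset.mem_singleton_self c), fun t ht => hc1 t (Finset.mem_union_right _ ht),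
    fun a b hab => ⟨hc1 a (Finset.mem_union_left _ ((m1 a).2 ⟨b, hab⟩)), hd2 b ((m2 b).2 ⟨a, hab⟩)⟩⟩

/-- Adding a promise. -/
theorem Cd.exists_add (p : Cd) (i : ℕ) {c d : ℚ} (hcd : c < d)
    (h : ∀ a b, (i, a, b) ∈ p.s → a ≤ c ∧ d ≤ b) : ∃ q ≤ p, (i, c, d) ∈ q.s := by
  refine ⟨⟨insert (i, c, d) p.s, p.fin.insert _, ?_⟩, fun x hx => Or.inr hx, Or.inl rfl⟩
  intro j a b a' b' h1 h2
  rcases h1 with h1 | h1 <;> rcases h2 with h2 | h2
  · simp only [Prod.mk.injEq] at h1 h2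
    obtain ⟨-, rfl, -⟩ := h1
    obtain ⟨-, -, rfl⟩ := h2
    exact hcd
  · simp only [Prod.mk.injEq] at h1
    obtain ⟨rfl, rfl, -⟩ := h1
    exact hcd.trans_le (h _ _ h2).2
  · simp only [Prod.mk.injEq] at h2
    obtain ⟨rfl, -, rfl⟩ := h2
    exact (h _ _ h1).1.trans_lt hcd
  · exact p.co _ _ _ _ _ h1 h2

/-- An index that is not mentioned. -/
theorem Cd.exists_fresh (p : Cd) (E : Finset ℕ) : ∃ j, j ∉ E ∧ ∀ x, (j, x) ∉ p.s := by
  have h1 : ((fun x : ℕ × ℚ × ℚ => x.1) '' p.s ∪ (E : Set ℕ)).Finite :=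
    (p.fin.image _).union E.finite_toSet
  obtain ⟨j, hj⟩ := h1.exists_notMem
  exact ⟨j, fun h => hj (Or.inr h), fun x h => hj (Or.inl ⟨_, h, rfl⟩)⟩

/-- The combination of a condition with the image of a stronger one. -/
theorem compat {p q : Cd} (hqp : q ≤ p) {i j : ℕ} (hij : i ≠ j) (hj : ∀ x, (j, x) ∉ q.s)
    {c d : ℚ} (hcd : c < d) (h : ∀ a b, (i, a, b) ∈ p.s → a ≤ c ∧ d ≤ b) :
    ∃ r, r ≤ p ∧ r ≤ mv (Equiv.swap i j) q ∧ (i, c, d) ∈ r.s := by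
  have hm : ∀ k x, (k, x) ∈ (mv (Equiv.swap i j) q).s ↔ (Equiv.swap i j k, x) ∈ q.s := by
    intro k x
    rw [mem_mv, Equiv.symm_swap]
  refine ⟨⟨insert (i, c, d) (p.s ∪ (mv (Equiv.swap i j) q).s),
    (p.fin.union (mv (Equiv.swap i j) q).fin).insert _, ?_⟩,
    fun x hx => Or.inr (Or.inl hx), fun x hx => Or.inr (Or.inr hx), Or.inl rfl⟩
  have key1 : ∀ x, (i, x) ∉ (mv (Equiv.swap i j) q).s := by
    intro x hx
    rw [hm, Equiv.swap_apply_left] at hx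
    exact hj x hx
  have key2 : ∀ k x y, (k, x) ∈ p.s → (k, y) ∈ (mv (Equiv.swap i j) q).s → (k, y) ∈ q.s := by
    intro k x y hx hy
    by_cases hki : k = i
    · subst hki
      exact absurd hy (key1 y)
    · by_cases hkj : k = j
      · subst hkj
        exact absurd (hqp hx) (hj x)
      · rw [hm, Equiv.swap_apply_of_ne_of_ne hki hkj] at hy
        exact hy
  intro k a b a' b' h1 h2
  rcases h1 with h1 | h1 | h1 <;> rcases h2 with h2 | h2 | h2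
  · simp only [Prod.mk.injEq] at h1 h2
    obtain ⟨-, rfl, -⟩ := h1
    obtain ⟨-, -, rfl⟩ := h2
    exact hcd
  · simp only [Prod.mk.injEq] at h1
    obtain ⟨rfl, rfl, -⟩ := h1
    exact hcd.trans_le (h _ _ h2).2
  · simp only [Prod.mk.injEq] at h1
    obtain ⟨rfl, rfl, -⟩ := h1
    exact absurd h2 (key1 _)
  · simp only [Prod.mk.injEq] at h2
    obtain ⟨rfl, -, rfl⟩ := h2
    exact (h _ _ h1).1.trans_lt hcd
  · exact p.co _ _ _ _ _ h1 h2
  · exact q.co _ _ _ _ _ (hqp h1) (key2 _ _ _ h1 h2)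
  · simp only [Prod.mk.injEq] at h2
    obtain ⟨rfl, -, rfl⟩ := h2
    exact absurd h1 (key1 _)
  · exact q.co _ _ _ _ _ (key2 _ _ _ h2 h1) (hqp h2)
  · exact (mv (Equiv.swap i j) q).co _ _ _ _ _ h1 h2

/-! ### Genericity -/

/-- The name for the statement that the filter meets `A`. -/
def nmA (A : Set Cd) : PName Cd := PName.mk {r // r ∈ A} (fun _ => emp) (fun r => r.1)

theorem el_nmA {A : Set Cd} {z : PName Cd} {c : Cd} : El (nmA A) z c ↔ z = emp ∧ c ∈ A := by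
  rw [nmA, el_mk]
  constructor
  · rintro ⟨⟨r, hr⟩, rfl, rfl⟩
    exact ⟨rfl, hr⟩
  · rintro ⟨rfl, h⟩
    exact ⟨⟨c, h⟩, rfl, rfl⟩

theorem meet {π : Pkg Cd} {A : Set Cd} (hA : nmA A ∈ π.N) (he : (emp : PName Cd) ∈ π.N)
    (hd : ∀ p : Cd, ∃ q ≤ p, q ∈ A) : ∃ k, ∃ c ∈ A, π.g k ≤ c := by
  have h : ∀ p, Fmem emp (nmA A) p := by
    intro p
    rw [fmem_iff]
    intro q hq
    obtain ⟨s, hs, hsA⟩ := hd q
    exact ⟨s, hs, emp, s, el_nmA.2 ⟨rfl, hsA⟩, le_rfl, Feq.refl _ _⟩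
  obtain ⟨z, hz, c, k, hc, hk, -⟩ := π.gen_mem he hA (n := 0) (h _)
  exact ⟨k, c, (el_nmA.1 hc).2, hk⟩

end Pool.Agent.R602.CO
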