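import Pool.Agent.R602.CO.Top

/-!
# The irrational numbers of the model are not a k-space
-/

set_option autoImplicit false

namespace Pool.Agent.R602.CO

open Pool.Agent.W868
open ZFSet (pair)

section

variable {M : Set ZFSet.{0}} (hM : IsZF M) (hlt : ltQ ∈ M)

include hM

/-- The rational intervals that a set avoids. -/
theorem avoid_mem {K : ZFSet.{0}} (hK : K ∈ M) : ∃ z ∈ M, ∀ a b : ℚ,
    pair (code a) (code b) ∈ z ↔ ∀ c ∈ K, code a ∈ c → code b ∈ c := by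
  have hB := hM.base
  obtain ⟨z, hz, -, h⟩ := hM.rel_mem hM.infinity hM.infinity
    (Q := fun u v => ∀ c ∈ K, u ∈ c → v ∈ c) (by
    (repeat' first
      | assumption
      | exact DfnF.proj _
      | exact DfnF.const (by assumption)
      | apply Dfn.not | apply Dfn.and | apply Dfn.or | apply Dfn.imp | apply Dfn.iff
      | apply hB.bex | apply hB.ball | apply Dfn.ex | apply Dfn.all
      | apply Dfn.eq | apply Dfn.mem | apply hB.pair'))
  refine ⟨z, hz, fun a b => ?_⟩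
  rw [h]
  exact ⟨fun h => h.2.2, fun h => ⟨code_mem_omega a, code_mem_omega b, h⟩⟩

include hlt

/-- Compact sets of irrational numbers are nowhere dense. -/
theorem compact_avoid {K : ZFSet.{0}} (hK : K ∈ M) (hc : CompactIn M K)
    (hI : ∀ z ∈ K, ∃ x : ℝ, Irrational x ∧ z = cut x) {c d : ℚ} (hcd : c < d) :
    ∃ a, c ≤ a ∧ a < d ∧ ∀ z ∈ K, code a ∈ z → code d ∈ z := by
  classical
  have hB := hM.base
  have hom := hM.infinity
  have hd : code d ∈ M := hM.nat_mem _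
  obtain ⟨Pw, hPw, hPw'⟩ := hM.power _ hK
  have h1 := hM.sep_mem (Q := fun V => ∃ u ∈ ZFSet.omega, pair u (code d) ∈ ltQ ∧
    ∀ z ∈ K, (z ∈ V ↔ (¬ u ∈ z) ∨ code d ∈ z)) (by
    (repeat' first
      | assumption
      | exact DfnF.proj _
      | exact DfnF.const (by assumption)
      | apply Dfn.iff | apply Dfn.not | apply Dfn.and | apply Dfn.or | apply Dfn.imp
      | apply hB.bex | apply hB.ball | apply Dfn.ex | apply Dfn.all
      | apply Dfn.eq | apply Dfn.mem | apply hB.pair')) hPw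
  set C := ZFSet.sep (fun V => ∃ u ∈ ZFSet.omega, pair u (code d) ∈ ltQ ∧
    ∀ z ∈ K, (z ∈ V ↔ (¬ u ∈ z) ∨ code d ∈ z)) Pw with hC
  have hmem : ∀ V ∈ C, V ⊆ K ∧ ∃ a : ℚ, a < d ∧ ∀ z ∈ K, (z ∈ V ↔ (¬ code a ∈ z) ∨ code d ∈ z) := by
    intro V hV
    obtain ⟨h2, u, hu, h3, h4⟩ := ZFSet.mem_sep.1 hV
    obtain ⟨a, rfl⟩ := exists_code hu
    exact ⟨((hPw' V).1 h2).2, a, pair_mem_ltQ.1 h3, h4⟩
  have hopen : ∀ V ∈ C, OpenIn K V := by
    intro V hV
    obtain ⟨h2, a, had, h3⟩ := hmem V hV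
    refine ⟨h2, fun x hx => ?_⟩
    have hxK := h2 hx
    obtain ⟨x', hx', he⟩ := hI _ hxK
    rw [← cut_inj he] at hx'
    rcases (h3 _ hxK).1 hx with h4 | h4
    · have h5 : x < a := by
        rcases lt_trichotomy x a with h | h | h
        · exact h
        · exact absurd ⟨a, h.symm⟩ hx'
        · exact absurd (code_mem_cut.2 h) h4
      obtain ⟨l, hl⟩ := exists_rat_lt x
      refine ⟨l, a, hl, h5, fun y hy _ hya => (h3 _ hy).2 (Or.inl fun h => ?_)⟩
      exact absurd (code_mem_cut.1 h) (not_lt.2 hya.le)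
    · have h5 := code_mem_cut.1 h4
      obtain ⟨u, hu⟩ := exists_rat_gt x
      exact ⟨d, u, h5, hu, fun y hy hdy _ => (h3 _ hy).2 (Or.inr (code_mem_cut.2 hdy))⟩
  have hcov : ∀ z ∈ K, ∃ V ∈ C, z ∈ V := by
    intro z hz
    obtain ⟨x, hx, rfl⟩ := hI z hz
    obtain ⟨a, had, ha⟩ : ∃ a : ℚ, a < d ∧ ((¬ code a ∈ cut x) ∨ code d ∈ cut x) := by
      rcases lt_trichotomy x d with h | h | h
      · obtain ⟨a, ha1, ha2⟩ := exists_rat_btwn h
        exact ⟨a, by exact_mod_cast ha2, Or.inl fun h' => absurd (code_mem_cut.1 h')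
          (not_lt.2 ha1.le)⟩
      · exact absurd ⟨d, h.symm⟩ hx
      · exact ⟨c, hcd, Or.inr (code_mem_cut.2 h)⟩
    have hcode : code a ∈ M := hM.nat_mem _
    have hV := hM.sep_mem (Q := fun z => (¬ code a ∈ z) ∨ code d ∈ z) (by
      (repeat' first
        | assumption
        | exact DfnF.proj _
        | exact DfnF.const (by assumption)
        | apply Dfn.not | apply Dfn.and | apply Dfn.or | apply Dfn.imp | apply Dfn.iff
        | apply hB.bex | apply hB.ball | apply Dfn.ex | apply Dfn.all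
        | apply Dfn.eq | apply Dfn.mem | apply hB.pair')) hK
    refine ⟨_, ZFSet.mem_sep.2 ⟨(hPw' _).2 ⟨hV, fun z hz => (ZFSet.mem_sep.1 hz).1⟩, code a,
      code_mem_omega a, pair_mem_ltQ.2 had, fun z hz => ?_⟩, ZFSet.mem_sep.2 ⟨hz, ha⟩⟩
    rw [ZFSet.mem_sep]
    exact ⟨fun h => h.2, fun h => ⟨hz, h⟩⟩
  obtain ⟨D, -, hDC, hfin, hDcov⟩ := hc C h1 hopen hcov
  have hmem2 := fun V hV => (hmem V hV).2
  choose! f hf using hmem2
  obtain ⟨m, hm1, hm2⟩ := Order.exists_between_finsets (insert c (hfin.finite.image f).toFinset)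
    ({d} : Finset ℚ) (by
      intro x hx y hy
      rw [Finset.mem_singleton.1 hy]
      rcases Finset.mem_insert.1 hx with rfl | hx
      · exact hcd
      · rw [Set.Finite.mem_toFinset] at hx
        obtain ⟨V, hV, rfl⟩ := hx
        exact (hf V (hDC hV)).1)
  refine ⟨m, (hm1 c (Finset.mem_insert_self _ _)).le, hm2 d (Finset.mem_singleton_self d),
    fun z hz hmz => ?_⟩
  obtain ⟨V, hV, hzV⟩ := hDcov z hz
  rcases ((hf V (hDC hV)).2 z hz).1 hzV with h | h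
  · exfalso
    apply h
    obtain ⟨x, -, rfl⟩ := hI z hz
    refine code_mem_cut.2 (lt_trans ?_ (code_mem_cut.1 hmz))
    have h2 := hm1 (f V) (Finset.mem_insert_of_mem ((Set.Finite.mem_toFinset _).2 ⟨V, hV, rfl⟩))
    exact_mod_cast h2
  · exact h

end

/-- The irrational numbers of the model are not a k-space. -/
theorem not_kSpace {M : Set ZFSet.{0}} {r : ℕ → ℝ} (h : IsGood M r) {P : ZFSet.{0}}
    (hP : ∀ z, z ∈ P ↔ z ∈ M ∧ ∃ x : ℝ, Irrational x ∧ z = cut x) : ¬ KSpaceIn M P := by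
  intro hk
  have hM := h.zf
  have hB := hM.base
  obtain ⟨D, hD, hD'⟩ := h.set_mem
  have hr0 := h.cut_mem 0
  have hA := hM.sep_mem (Q := fun z => ¬ z = cut (r 0)) (by
    (repeat' first
      | assumption
      | exact DfnF.proj _
      | exact DfnF.const (by assumption)
      | apply Dfn.not | apply Dfn.and | apply Dfn.or | apply Dfn.imp | apply Dfn.iff
      | apply hB.bex | apply hB.ball | apply Dfn.ex | apply Dfn.all
      | apply Dfn.eq | apply Dfn.mem | apply hB.pair')) hD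
  set A := ZFSet.sep (fun z => ¬ z = cut (r 0)) D with hAdef
  have hA' : ∀ z, z ∈ A ↔ ∃ i, z = cut (r i) ∧ r i ≠ r 0 := by
    intro z
    rw [hAdef, ZFSet.mem_sep, hD']
    constructor
    · rintro ⟨⟨i, rfl⟩, h1⟩
      exact ⟨i, rfl, fun h2 => h1 (by rw [h2])⟩
    · rintro ⟨i, rfl, h1⟩
      exact ⟨⟨i, rfl⟩, fun h2 => h1 (cut_inj h2)⟩
  have hAP : A ⊆ P := by
    intro z hz
    obtain ⟨i, rfl, -⟩ := (hA' z).1 hz
    exact (hP _).2 ⟨h.cut_mem i, r i, h.irr i, rfl⟩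
  have hcl : ClosedIn P A := by
    refine hk A hA hAP fun K hK hKP hcK => ⟨fun z hz => (ZFSet.mem_inter.1 hz).2, ?_, ?_⟩
    · intro z hz
      exact (ZFSet.mem_sdiff.1 hz).1
    · intro x hx
      obtain ⟨z, hz, hz'⟩ := avoid_mem hM hK
      obtain ⟨E, hE⟩ := h.grab z hz (by
        intro c d hcd
        obtain ⟨a, hca, had, h1⟩ := compact_avoid hM h.lt_mem hK hcK
          (fun z hz => ((hP z).1 (hKP hz)).2) hcd
        exact ⟨a, d, hca, had, le_rfl, (hz' a d).2 h1⟩)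
      have hfin : ({y : ℝ | cut y ∈ A ∩ K} : Set ℝ).Finite := by
        refine ((E.finite_toSet).image r).subset fun y hy => ?_
        obtain ⟨h1, h2⟩ := ZFSet.mem_inter.1 (show cut y ∈ A ∩ K from hy)
        obtain ⟨i, h3, -⟩ := (hA' _).1 h1
        refine ⟨i, ?_, (cut_inj h3).symm⟩
        by_contra hi
        obtain ⟨a, b, h4, h5, h6⟩ := hE i hi
        rw [h3] at h2
        exact absurd (code_mem_cut.1 ((hz' a b).1 h4 _ h2 (code_mem_cut.2 h5))) (not_lt.2 h6.le)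
      obtain ⟨hxK, hxn⟩ := ZFSet.mem_sdiff.1 hx
      obtain ⟨a, b, h1, h2, h3⟩ := exists_avoid hfin (x := x) hxn
      exact ⟨a, b, h1, h2, fun y hy h4 h5 => ZFSet.mem_sdiff.2 ⟨hy, fun h6 => h3 y h6 ⟨h4, h5⟩⟩⟩
  obtain ⟨-, -, hop⟩ := hcl
  obtain ⟨a, b, h1, h2, h3⟩ := hop (r 0) (ZFSet.mem_sdiff.2
    ⟨(hP _).2 ⟨hr0, r 0, h.irr 0, rfl⟩, fun h1 => by
      obtain ⟨i, h2, h3⟩ := (hA' _).1 h1
      exact h3 (cut_inj h2).symm⟩)
  obtain ⟨q, hq1, hq2⟩ := exists_rat_btwn h1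
  obtain ⟨i, hi1, hi2⟩ := h.dense a q (by exact_mod_cast hq1)
  have h4 := h3 (r i) ((hP _).2 ⟨h.cut_mem i, r i, h.irr i, rfl⟩) hi1
    (hi2.trans (hq2.trans h2))
  exact (ZFSet.mem_sdiff.1 h4).2 ((hA' _).2 ⟨i, rfl, (hi2.trans hq2).ne⟩)

end Pool.Agent.R602.CO
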