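import Pool.Agent.R602.CO.Real

/-!
# The model
-/

set_option autoImplicit false

namespace Pool.Agent.R602.CO

open Pool.Agent.W868 Pool.Agent.W868.PName Pool.Agent.R598.SY
open ZFSet (pair)

/-- The order of the rational numbers, in codes. -/
noncomputable def ltQ : ZFSet.{0} :=
  ZFSet.sep (fun z => ∃ p q : ℚ, p < q ∧ z = pair (code p) (code q))
    (ZFSet.prod ZFSet.omega ZFSet.omega)

theorem mem_ltQ {z : ZFSet.{0}} : z ∈ ltQ ↔ ∃ p q : ℚ, p < q ∧ z = pair (code p) (code q) := by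
  rw [ltQ, ZFSet.mem_sep]
  constructor
  · exact fun h => h.2
  · rintro ⟨p, q, h, rfl⟩
    exact ⟨ZFSet.pair_mem_prod.2 ⟨code_mem_omega p, code_mem_omega q⟩, p, q, h, rfl⟩

theorem pair_mem_ltQ {p q : ℚ} : pair (code p) (code q) ∈ ltQ ↔ p < q := by
  rw [mem_ltQ]
  constructor
  · rintro ⟨p', q', h, he⟩
    obtain ⟨h1, h2⟩ := ZFSet.pair_inj.1 he
    rwa [code_inj h1, code_inj h2]
  · exact fun h => ⟨p, q, h, rfl⟩

theorem hat_ltQ (π : Pkg Cd) : π.hat ltQ = ltQ := by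
  have h1 : ∀ p q : ℚ, pair (code p) (code q) ∈ π.Z :=
    fun p q => π.pair_mem_Z (π.nat_Z _) (π.nat_Z _)
  have h2 : ∀ p q : ℚ, π.hat (pair (code p) (code q)) = pair (code p) (code q) := by
    intro p q
    unfold code
    rw [π.hat_pair (π.nat_Z _) (π.nat_Z _), π.hat_nat, π.hat_nat]
  ext z
  rw [π.mem_hat]
  constructor
  · rintro ⟨y, hy, -, rfl⟩
    obtain ⟨p, q, h, rfl⟩ := mem_ltQ.1 hy
    rw [h2]
    exact hy
  · intro hz
    obtain ⟨p, q, h, rfl⟩ := mem_ltQ.1 hz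
    exact ⟨_, hz, h1 p q, h2 p q⟩

/-- The properties of the model `M` and of its generic reals `r i`. -/
structure IsGood (M : Set ZFSet.{0}) (r : ℕ → ℝ) : Prop where
  zf : IsZF M
  lt_mem : ltQ ∈ M
  irr : ∀ i, Irrational (r i)
  cut_mem : ∀ i, cut (r i) ∈ M
  set_mem : ∃ D ∈ M, ∀ z, z ∈ D ↔ ∃ i, z = cut (r i)
  dense : ∀ a b : ℚ, a < b → ∃ i, (a : ℝ) < r i ∧ r i < b
  grab : ∀ z ∈ M, (∀ c d : ℚ, c < d → ∃ a b, c ≤ a ∧ a < b ∧ b ≤ d ∧ pair (code a) (code b) ∈ z) →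
    ∃ E : Finset ℕ, ∀ i, i ∉ E → ∃ a b : ℚ, pair (code a) (code b) ∈ z ∧ (a : ℝ) < r i ∧ r i < b

theorem exists_model : ∃ M : Set ZFSet.{0}, M.Countable ∧ ∃ r, IsGood M r := by
  obtain ⟨π, hA, -, hcl⟩ := exists_pkg sys.rules (Set.Finite.countable (by
    unfold Sys.rules
    exact Set.toFinite _)) ({DN, emp, check ltQ} ∪ Set.range cN ∪ Set.range IN ∪
      (Set.range fun t : ℕ × ℚ => nmA (dA t.1 t.2)) ∪ Set.range fun t : ℚ × ℚ => nmA (dB t.1 t.2))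
    ((((Set.toFinite _).countable.union (Set.countable_range _)).union
      (Set.countable_range _)).union (Set.countable_range _) |>.union (Set.countable_range _)) ⊤
  have hCld : sys.Cld π := fun ρ hρ => hcl ρ hρ
  have hM : IsZF (sys.Ms π) := T_ZF.main T_TRU.main T_SEP.main _ _ π hCld
  have hDN : DN ∈ π.N := hA (Or.inl (Or.inl (Or.inl (Or.inl (Or.inl rfl)))))
  have he : (emp : PName Cd) ∈ π.N := hA (Or.inl (Or.inl (Or.inl (Or.inl (Or.inr (Or.inl rfl))))))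
  have hlt : check ltQ ∈ π.N := hA (Or.inl (Or.inl (Or.inl (Or.inl (Or.inr (Or.inr rfl))))))
  have hcN : ∀ i, cN i ∈ π.N := fun i => hA (Or.inl (Or.inl (Or.inl (Or.inr ⟨i, rfl⟩))))
  have hIN : ∀ i, IN i ∈ π.N := fun i => hA (Or.inl (Or.inl (Or.inr ⟨i, rfl⟩)))
  have hdA : ∀ i q, nmA (dA i q) ∈ π.N := fun i q => hA (Or.inl (Or.inr ⟨(i, q), rfl⟩))
  have hdB : ∀ a b, nmA (dB a b) ∈ π.N := fun a b => hA (Or.inr ⟨(a, b), rfl⟩)
  choose r hr using exists_real he hdA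
  have hcut : ∀ i, π.val (cN i) = cut (r i) := fun i => val_cN he hdA (hr i)
  refine ⟨sys.Ms π, (π.cnt.mono fun _ h => h.1).image _, r, hM, ?_, ?_, ?_, ?_, ?_, ?_⟩
  · rw [← hat_ltQ π]
    exact ⟨check ltQ, ⟨hlt, sys.hs_check _⟩, rfl⟩
  · rintro i ⟨q, hq⟩
    obtain ⟨a, b, hab, h | h⟩ := gg_dec he hdA i q
    · have h1 := (hr i a b hab).1
      have h2 : (q : ℝ) < a := by exact_mod_cast h
      rw [← hq] at h1
      exact lt_irrefl _ (h1.trans h2)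
    · have h1 := (hr i a b hab).2
      have h2 : (b : ℝ) < q := by exact_mod_cast h
      rw [← hq] at h1
      exact lt_irrefl _ (h1.trans h2)
  · intro i
    exact ⟨cN i, ⟨hcN i, hs_cN i⟩, hcut i⟩
  · refine ⟨π.val DN, ⟨DN, ⟨hDN, hs_DN⟩, rfl⟩, fun z => ?_⟩
    rw [π.mem_val]
    constructor
    · rintro ⟨y, hy, c, hc, -, rfl⟩
      obtain ⟨i, rfl, -⟩ := el_DN.1 hc
      exact ⟨i, hcut i⟩
    · rintro ⟨i, rfl⟩
      exact ⟨cN i, hcN i, ⊤, el_DN.2 ⟨i, rfl, rfl⟩, ⟨0, le_top⟩, hcut i⟩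
  · intro a b hab
    obtain ⟨j, hj⟩ := gg_dense he hdB hab
    exact ⟨j, hr j a b hj⟩
  · intro z hz h
    obtain ⟨t, ht, rfl, E, hE⟩ := exists_supp hz
    refine ⟨E, fun i hi => ?_⟩
    obtain ⟨a, b, a', b', h1, h2, h3, h4⟩ := grab (hIN i) ht hE hi h
    have h5 := hr i a' b' h4
    have h6 : (a : ℝ) ≤ a' := by exact_mod_cast h2
    have h7 : (b' : ℝ) ≤ b := by exact_mod_cast h3
    exact ⟨a, b, h1, h6.trans_lt h5.1, h5.2.trans_le h7⟩

end Pool.Agent.R602.CO
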