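import Pool.Agent.R602.CO.Top

/-!
# Zero-dimensional and N-compact subspaces of the real line in a transitive model of ZF
-/

set_option autoImplicit false

namespace Pool.Agent.R602.CO

open Pool.Agent.W868
open ZFSet (pair)

/-! ### Definitions -/

/-- In `M`, the subspace `X` of the real line is zero-dimensional: it is a `T₁`-space and its
clopen subsets are a base. -/
def ZeroDimIn (M : Set ZFSet.{0}) (X : ZFSet.{0}) : Prop :=
  (∀ x ∈ X, ClosedIn X {x}) ∧ ∀ U ∈ M, OpenIn X U → ∀ x ∈ U, ∃ V ∈ M,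
    OpenIn X V ∧ ClosedIn X V ∧ x ∈ V ∧ V ⊆ U

/-- In `M`, the function `h` is a homeomorphism of the subspace `X` of the real line onto the
closed subspace `C` of the product space `ω ^ J`. -/
structure IsClosedEmb (M : Set ZFSet.{0}) (X J C h : ZFSet.{0}) : Prop where
  fn : ∀ f ∈ C, ZFSet.IsFunc J ZFSet.omega f
  bij : IsBij X C h
  top : ∀ U ∈ M, U ⊆ X → (OpenIn X U ↔ ∀ x ∈ U, ∀ f, pair x f ∈ h → ∃ F ∈ M, F ⊆ J ∧ FinIn M F ∧
    ∀ y ∈ X, ∀ g, pair y g ∈ h → (∀ j ∈ F, ∀ n, pair j n ∈ f ↔ pair j n ∈ g) → y ∈ U)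
  closed : ∀ f ∈ M, ZFSet.IsFunc J ZFSet.omega f →
    (∀ F ∈ M, F ⊆ J → FinIn M F → ∃ g ∈ C, ∀ j ∈ F, ∀ n, pair j n ∈ f ↔ pair j n ∈ g) → f ∈ C

/-- In `M`, the subspace `X` of the real line is N-compact: it is homeomorphic to a closed subspace
of `ω ^ J` for some set `J`. -/
def NCompactIn (M : Set ZFSet.{0}) (X : ZFSet.{0}) : Prop :=
  ∃ J ∈ M, ∃ C ∈ M, ∃ h ∈ M, IsClosedEmb M X J C h

/-! ### Finite sets -/

theorem isBij_insert {Y f a : ZFSet.{0}} {n : ℕ} (h : IsBij Y (nat n) f) (ha : a ∉ Y) :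
    IsBij (insert a Y) (nat (n + 1)) (insert (pair a (nat n)) f) := by
  obtain ⟨⟨⟨h1, h2⟩, h3⟩, h4⟩ := h
  have hn : nat n ∉ nat n := ZFSet.mem_irrefl _
  have hin : ∀ x y, pair x y ∈ f → x ∈ Y ∧ y ∈ nat n := fun x y hxy => ZFSet.pair_mem_prod.1 (h1 hxy)
  have hmem : ∀ x y, pair x y ∈ insert (pair a (nat n)) f ↔ (x = a ∧ y = nat n) ∨ pair x y ∈ f := by
    intro x y
    rw [ZFSet.mem_insert_iff, ZFSet.pair_inj]
  refine ⟨⟨⟨?_, ?_⟩, ?_⟩, ?_⟩
  · intro z hz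
    rcases ZFSet.mem_insert_iff.1 hz with rfl | hz
    · exact ZFSet.pair_mem_prod.2 ⟨ZFSet.mem_insert_iff.2 (Or.inl rfl),
        ZFSet.mem_insert_iff.2 (Or.inl rfl)⟩
    · obtain ⟨x, hx, y, hy, rfl⟩ := ZFSet.mem_prod.1 (h1 hz)
      exact ZFSet.pair_mem_prod.2 ⟨ZFSet.mem_insert_iff.2 (Or.inr hx),
        ZFSet.mem_insert_iff.2 (Or.inr hy)⟩
  · intro z hz
    rcases ZFSet.mem_insert_iff.1 hz with rfl | hz
    · refine ⟨nat n, (hmem _ _).2 (Or.inl ⟨rfl, rfl⟩), fun w hw => ?_⟩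
      rcases (hmem _ _).1 hw with ⟨-, h⟩ | h
      · exact h
      · exact absurd (hin _ _ h).1 ha
    · obtain ⟨w, hw, hu⟩ := h2 z hz
      refine ⟨w, (hmem _ _).2 (Or.inr hw), fun w' hw' => ?_⟩
      rcases (hmem _ _).1 hw' with ⟨h, -⟩ | h
      · exact absurd hz (h ▸ ha)
      · exact hu w' h
  · intro x y c hx hy
    rcases (hmem _ _).1 hx with ⟨hxa, hc⟩ | hx' <;> rcases (hmem _ _).1 hy with ⟨hya, hc'⟩ | hy'
    · exact hxa.trans hya.symm
    · exact absurd (hc ▸ (hin _ _ hy').2) hn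
    · exact absurd (hc' ▸ (hin _ _ hx').2) hn
    · exact h3 x y c hx' hy'
  · intro b hb
    rcases ZFSet.mem_insert_iff.1 hb with rfl | hb
    · exact ⟨a, ZFSet.mem_insert_iff.2 (Or.inl rfl), (hmem _ _).2 (Or.inl ⟨rfl, rfl⟩)⟩
    · obtain ⟨x, hx, hxb⟩ := h4 b hb
      exact ⟨x, ZFSet.mem_insert_iff.2 (Or.inr hx), (hmem _ _).2 (Or.inr hxb)⟩

theorem finIn_empty {M : Set ZFSet.{0}} (hM : IsZF M) : FinIn M ∅ := by
  refine ⟨0, ∅, hM.empty_mem, ⟨⟨⟨?_, ?_⟩, ?_⟩, ?_⟩⟩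
  · intro z hz
    exact absurd hz (ZFSet.notMem_empty _)
  · intro z hz
    exact absurd hz (ZFSet.notMem_empty _)
  · intro x y c hx
    exact absurd hx (ZFSet.notMem_empty _)
  · intro b hb
    exact absurd hb (ZFSet.notMem_empty _)

theorem finIn_insert {M : Set ZFSet.{0}} (hM : IsZF M) {Y a : ZFSet.{0}} (ha : a ∈ M)
    (h : FinIn M Y) : FinIn M (insert a Y) := by
  obtain ⟨n, f, hf, h1⟩ := h
  by_cases haY : a ∈ Y
  · have h2 : insert a Y = Y := by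
      ext z
      rw [ZFSet.mem_insert_iff]
      constructor
      · rintro (rfl | h)
        · exact haY
        · exact h
      · exact Or.inr
    rw [h2]
    exact ⟨n, f, hf, h1⟩
  · exact ⟨n + 1, _, hM.insert_mem (hM.pair_mem ha (hM.nat_mem n)) hf, isBij_insert h1 haY⟩

theorem finIn_single {M : Set ZFSet.{0}} (hM : IsZF M) {a : ZFSet.{0}} (ha : a ∈ M) :
    FinIn M {a} := by
  have h1 := finIn_insert hM ha (finIn_empty hM)
  have h2 : (insert a ∅ : ZFSet.{0}) = {a} := by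
    ext z
    rw [ZFSet.mem_insert_iff, ZFSet.mem_singleton]
    constructor
    · rintro (h | h)
      · exact h
      · exact absurd h (ZFSet.notMem_empty _)
    · exact Or.inl
  rwa [h2] at h1

end Pool.Agent.R602.CO
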