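import Pool.Agent.R602.CO.NDef

/-!
# A zero-dimensional subspace of the real line that is not N-compact
-/

set_option autoImplicit false

namespace Pool.Agent.R602.CO

open Pool.Agent.W868
open ZFSet (pair)

/-- The value of the `j`-th coordinate function at `x` is `n`. -/
def At (C h x j n : ZFSet.{0}) : Prop := ∀ f ∈ C, pair x f ∈ h → pair j n ∈ f

section

variable {M : Set ZFSet.{0}} {r : ℕ → ℝ} (hg : IsGood M r) {X J C h : ZFSet.{0}}
  (hXM : X ∈ M) (hJM : J ∈ M) (hCM : C ∈ M) (hhM : h ∈ M)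
  (hX : ∀ z, z ∈ X ↔ z ∈ M ∧ ∃ x : ℝ, z = cut x ∧ ∀ i, x ≠ r i)

include hg hXM hX in
/-- The space is zero-dimensional. -/
theorem zeroDim : ZeroDimIn M X := by
  have hM := hg.zf
  have hB := hM.base
  have hmem : ∀ x : ℝ, cut x ∈ X → ∀ i, x ≠ r i := by
    intro x hx i
    obtain ⟨-, y, hy, h1⟩ := (hX _).1 hx
    rw [cut_inj hy]
    exact h1 i
  refine ⟨fun z hz => ?_, fun U hU hop z hz => ?_⟩
  · obtain ⟨-, x, rfl, -⟩ := (hX z).1 hz
    refine ⟨fun w hw => (ZFSet.mem_singleton.1 hw) ▸ hz, fun w hw => (ZFSet.mem_sdiff.1 hw).1,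
      fun y hy => ?_⟩
    obtain ⟨hyX, hyx⟩ := ZFSet.mem_sdiff.1 hy
    have hne : y ∉ ({x} : Set ℝ) := by
      intro h1
      rw [Set.mem_singleton_iff] at h1
      exact hyx (ZFSet.mem_singleton.2 (by rw [h1]))
    obtain ⟨a, b, h1, h2, h3⟩ := exists_avoid (Set.finite_singleton x) hne
    refine ⟨a, b, h1, h2, fun w hw h4 h5 => ZFSet.mem_sdiff.2 ⟨hw, fun h6 => ?_⟩⟩
    have h7 := cut_inj (ZFSet.mem_singleton.1 h6)
    subst h7
    exact h3 w rfl ⟨h4, h5⟩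
  · obtain ⟨-, x, rfl, -⟩ := (hX z).1 (hop.1 hz)
    obtain ⟨a, b, h1, h2, h3⟩ := hop.2 x hz
    obtain ⟨p, hp1, hp2⟩ := exists_rat_btwn h1
    obtain ⟨q, hq1, hq2⟩ := exists_rat_btwn h2
    obtain ⟨i, hi1, hi2⟩ := hg.dense a p (by exact_mod_cast hp1)
    obtain ⟨k, hk1, hk2⟩ := hg.dense q b (by exact_mod_cast hq2)
    have hci := hg.cut_mem i
    have hck := hg.cut_mem k
    have hV := hM.sep_mem (Q := fun z => cut (r i) ⊆ z ∧ z ⊆ cut (r k)) (by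
      (repeat' first
        | assumption
        | exact DfnF.proj _
        | exact DfnF.const (by assumption)
        | apply Dfn.not | apply Dfn.and | apply Dfn.or | apply Dfn.imp | apply Dfn.iff
        | apply hB.bex | apply hB.ball | apply Dfn.ex | apply Dfn.all
        | apply Dfn.eq | apply Dfn.mem)) hXM
    set V := ZFSet.sep (fun z => cut (r i) ⊆ z ∧ z ⊆ cut (r k)) X with hVdef
    have hV' : ∀ y : ℝ, cut y ∈ V ↔ cut y ∈ X ∧ r i ≤ y ∧ y ≤ r k := by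
      intro y
      rw [hVdef, ZFSet.mem_sep, cut_subset_cut, cut_subset_cut]
    refine ⟨V, hV, ⟨fun w hw => (ZFSet.mem_sep.1 hw).1, fun y hy => ?_⟩,
      ⟨fun w hw => (ZFSet.mem_sep.1 hw).1, fun w hw => (ZFSet.mem_sdiff.1 hw).1, fun y hy => ?_⟩,
      (hV' x).2 ⟨hop.1 hz, (hi2.trans hp2).le, (hq1.trans hk1).le⟩, fun w hw => ?_⟩
    · obtain ⟨hyX, hy1, hy2⟩ := (hV' y).1 hy
      obtain ⟨l, hl1, hl2⟩ := exists_rat_btwn (lt_of_le_of_ne hy1 (hmem y hyX i).symm)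
      obtain ⟨u, hu1, hu2⟩ := exists_rat_btwn (lt_of_le_of_ne hy2 (hmem y hyX k))
      exact ⟨l, u, hl2, hu1, fun w hw h4 h5 => (hV' w).2 ⟨hw, (hl1.trans h4).le,
        (h5.trans hu2).le⟩⟩
    · obtain ⟨hyX, hyV⟩ := ZFSet.mem_sdiff.1 hy
      have h4 : y < r i ∨ r k < y := by
        by_contra hc
        rw [not_or, not_lt, not_lt] at hc
        exact hyV ((hV' y).2 ⟨hyX, hc.1, hc.2⟩)
      obtain ⟨l, hl⟩ := exists_rat_lt y
      obtain ⟨u, hu⟩ := exists_rat_gt y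
      rcases h4 with h4 | h4
      · obtain ⟨q', h5, h6⟩ := exists_rat_btwn h4
        refine ⟨l, q', hl, h5, fun w hw h7 h8 => ZFSet.mem_sdiff.2 ⟨hw, fun h9 => ?_⟩⟩
        exact absurd ((hV' w).1 h9).2.1 (not_le.2 (h8.trans h6))
      · obtain ⟨q', h5, h6⟩ := exists_rat_btwn h4
        refine ⟨q', u, h6, hu, fun w hw h7 h8 => ZFSet.mem_sdiff.2 ⟨hw, fun h9 => ?_⟩⟩
        exact absurd ((hV' w).1 h9).2.2 (not_le.2 (h5.trans h7))
    · have hwX := (ZFSet.mem_sep.1 hw).1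
      obtain ⟨-, y, rfl, -⟩ := (hX w).1 hwX
      obtain ⟨-, h4, h5⟩ := (hV' y).1 hw
      exact h3 y hwX (hi1.trans_le h4) (h5.trans_lt hk2)

variable (he : IsClosedEmb M X J C h)

include he in
theorem at_total {x j : ZFSet.{0}} (hx : x ∈ X) (hj : j ∈ J) : ∃ n ∈ ZFSet.omega, At C h x j n := by
  obtain ⟨⟨⟨h1, h2⟩, -⟩, -⟩ := he.bij
  obtain ⟨f, hf, hu⟩ := h2 x hx
  have hfC := (ZFSet.pair_mem_prod.1 (h1 hf)).2
  obtain ⟨h3, h4⟩ := he.fn f hfC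
  obtain ⟨n, hn, -⟩ := h4 j hj
  refine ⟨n, (ZFSet.pair_mem_prod.1 (h3 hn)).2, fun g _ hg => ?_⟩
  rw [hu g hg]
  exact hn

include he in
theorem at_iff {x f j n : ZFSet.{0}} (hx : x ∈ X) (hf : pair x f ∈ h) :
    At C h x j n ↔ pair j n ∈ f := by
  obtain ⟨⟨⟨h1, h2⟩, -⟩, -⟩ := he.bij
  have hfC := (ZFSet.pair_mem_prod.1 (h1 hf)).2
  constructor
  · exact fun h3 => h3 f hfC hf
  · intro h3 g _ hg
    obtain ⟨f', hf', hu⟩ := h2 x hx
    rw [hu g hg, ← hu f hf]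
    exact h3

include he in
theorem exists_img {x : ZFSet.{0}} (hx : x ∈ X) : ∃ f ∈ C, pair x f ∈ h := by
  obtain ⟨⟨⟨h1, h2⟩, -⟩, -⟩ := he.bij
  obtain ⟨f, hf, -⟩ := h2 x hx
  exact ⟨f, (ZFSet.pair_mem_prod.1 (h1 hf)).2, hf⟩

include he in
theorem at_unique {x j n m : ZFSet.{0}} (hx : x ∈ X) (hj : j ∈ J) (h1 : At C h x j n)
    (h2 : At C h x j m) : n = m := by
  obtain ⟨f, hfC, hf⟩ := exists_img he hx
  obtain ⟨-, h4⟩ := he.fn f hfC
  obtain ⟨k, -, hk⟩ := h4 j hj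
  rw [hk n (h1 f hfC hf), hk m (h2 f hfC hf)]

include hg hXM hCM hhM he hJM in
/-- The coordinate functions are continuous. -/
theorem at_cont {j n : ZFSet.{0}} (hj : j ∈ J) (hn : n ∈ M) {x : ℝ} (hx : cut x ∈ X)
    (h1 : At C h (cut x) j n) : ∃ a b : ℚ, (a : ℝ) < x ∧ x < b ∧ ∀ y : ℝ, cut y ∈ X →
      (a : ℝ) < y → y < b → At C h (cut y) j n := by
  have hM := hg.zf
  have hB := hM.base
  have hjM : j ∈ M := hM.trans _ hJM _ hj
  have hU := hM.sep_mem (Q := fun z => ∀ f ∈ C, pair z f ∈ h → pair j n ∈ f) (by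
    (repeat' first
      | assumption
      | exact DfnF.proj _
      | exact DfnF.const (by assumption)
      | apply Dfn.not | apply Dfn.and | apply Dfn.or | apply Dfn.imp | apply Dfn.iff
      | apply hB.bex | apply hB.ball | apply Dfn.ex | apply Dfn.all
      | apply Dfn.eq | apply Dfn.mem | apply hB.pair')) hXM
  have h2 := (he.top _ hU (fun z hz => (ZFSet.mem_sep.1 hz).1)).2 (by
    intro z hz f hf
    obtain ⟨hzX, hz2⟩ := ZFSet.mem_sep.1 hz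
    refine ⟨{j}, hM.single_mem hjM, fun i hi => (ZFSet.mem_singleton.1 hi) ▸ hj,
      finIn_single hM hjM, fun y hy g hgy hag => ZFSet.mem_sep.2 ⟨hy, ?_⟩⟩
    refine (at_iff he hy hgy).2 ?_
    rw [← hag j (ZFSet.mem_singleton.2 rfl)]
    exact (at_iff he hzX hf).1 hz2)
  obtain ⟨a, b, h3, h4, h5⟩ := h2.2 x (ZFSet.mem_sep.2 ⟨hx, h1⟩)
  exact ⟨a, b, h3, h4, fun y hy h6 h7 => (ZFSet.mem_sep.1 (h5 y hy h6 h7)).2⟩

end

end Pool.Agent.R602.CO
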