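import Pool.Agent.R602.CO.NSp

/-!
# A zero-dimensional subspace of the real line that is not N-compact: the proof
-/

set_option autoImplicit false

namespace Pool.Agent.R602.CO

open Pool.Agent.W868
open ZFSet (pair)

section

variable {M : Set ZFSet.{0}} {r : ℕ → ℝ} (hg : IsGood M r) {X J C h : ZFSet.{0}}
  (hXM : X ∈ M) (hJM : J ∈ M) (hCM : C ∈ M) (hhM : h ∈ M)
  (hX : ∀ z, z ∈ X ↔ z ∈ M ∧ ∃ x : ℝ, z = cut x ∧ ∀ i, x ≠ r i)
  (he : IsClosedEmb M X J C h)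

include hg hX in
theorem rat_mem (q : ℚ) : cut (q : ℝ) ∈ X := by
  have hM := hg.zf
  have hB := hM.base
  have hlt := hg.lt_mem
  have hq : code q ∈ M := hM.nat_mem _
  refine (hX _).2 ⟨?_, q, rfl, fun i hi => hg.irr i ⟨q, hi⟩⟩
  have h1 := hM.sep_mem (Q := fun u => pair u (code q) ∈ ltQ) (by
    (repeat' first
      | assumption
      | exact DfnF.proj _
      | exact DfnF.const (by assumption)
      | apply Dfn.mem | apply hB.pair')) hM.infinity
  have h2 : ZFSet.sep (fun u => pair u (code q) ∈ ltQ) ZFSet.omega = cut (q : ℝ) := by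
    ext z
    rw [ZFSet.mem_sep, mem_cut]
    constructor
    · rintro ⟨hz, h3⟩
      obtain ⟨p, rfl⟩ := exists_code hz
      exact ⟨p, by exact_mod_cast pair_mem_ltQ.1 h3, rfl⟩
    · rintro ⟨p, hp, rfl⟩
      exact ⟨code_mem_omega p, pair_mem_ltQ.2 (by exact_mod_cast hp)⟩
  rwa [h2] at h1

include hg hXM hJM hCM hhM hX he

/-- Each coordinate function is locally constant at almost all generic reals. -/
theorem loc_const {j : ZFSet.{0}} (hj : j ∈ J) : ∃ E : Finset ℕ, ∀ i, i ∉ E →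
    ∃ a b : ℚ, (a : ℝ) < r i ∧ r i < b ∧ ∀ x y : ℝ, cut x ∈ X → cut y ∈ X →
      (a : ℝ) < x → x ≤ b → (a : ℝ) < y → y ≤ b → ∀ n ∈ ZFSet.omega,
        At C h (cut x) j n → At C h (cut y) j n := by
  have hM := hg.zf
  have hB := hM.base
  have hom := hM.infinity
  have hjM : j ∈ M := hM.trans _ hJM _ hj
  obtain ⟨z, hz, -, h1⟩ := hM.rel_mem hM.infinity hM.infinity
    (Q := fun u v => ∀ x ∈ X, ∀ y ∈ X, u ∈ x → (¬ v ∈ x) → u ∈ y → (¬ v ∈ y) →
      ∀ n ∈ ZFSet.omega, (∀ f ∈ C, pair x f ∈ h → pair j n ∈ f) →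
        ∀ f ∈ C, pair y f ∈ h → pair j n ∈ f) (by
    (repeat' first
      | assumption
      | exact DfnF.proj _
      | exact DfnF.const (by assumption)
      | apply Dfn.not | apply Dfn.and | apply Dfn.or | apply Dfn.imp | apply Dfn.iff
      | apply hB.bex | apply hB.ball | apply Dfn.ex | apply Dfn.all
      | apply Dfn.eq | apply Dfn.mem | apply hB.pair'))
  obtain ⟨E, hE⟩ := hg.grab z hz (by
    intro c d hcd
    obtain ⟨m, hm1, hm2⟩ := exists_between hcd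
    have hmX := rat_mem hg hX m
    obtain ⟨n, hn, hmn⟩ := at_total he hmX hj
    obtain ⟨a, b, h2, h3, h4⟩ := at_cont hg hXM hJM hCM hhM he hj (hM.trans _ hom _ hn) hmX hmn
    obtain ⟨b', hb1, hb2⟩ := exists_between (show m < b by exact_mod_cast h3)
    have ham : a < m := by exact_mod_cast h2
    refine ⟨max a c, min b' d, le_max_right _ _, ?_, min_le_right _ _, (h1 _ _).2
      ⟨code_mem_omega _, code_mem_omega _, ?_⟩⟩
    · exact (max_lt ham hm1).trans (lt_min hb1 hm2)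
    · intro x hx y hy hx1 hx2 hy1 hy2 n' hn' hxn
      obtain ⟨-, x, rfl, -⟩ := (hX x).1 hx
      obtain ⟨-, y, rfl, -⟩ := (hX y).1 hy
      have hbb : ((min b' d : ℚ) : ℝ) < b := by
        have : min b' d < b := (min_le_left _ _).trans_lt hb2
        exact_mod_cast this
      have haa : (a : ℝ) ≤ ((max a c : ℚ) : ℝ) := by exact_mod_cast le_max_left a c
      have hin : ∀ w : ℝ, code (max a c) ∈ cut w → (¬ code (min b' d) ∈ cut w) →
          (a : ℝ) < w ∧ w < b := by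
        intro w hw1 hw2
        rw [code_mem_cut] at hw1 hw2
        exact ⟨haa.trans_lt hw1, (not_lt.1 hw2).trans_lt hbb⟩
      obtain ⟨hx3, hx4⟩ := hin x hx1 hx2
      obtain ⟨hy3, hy4⟩ := hin y hy1 hy2
      have e1 := at_unique he hx hj (h4 x hx hx3 hx4) hxn
      have e2 := h4 y hy hy3 hy4
      rw [e1] at e2
      exact e2)
  refine ⟨E, fun i hi => ?_⟩
  obtain ⟨a, b, hab, h5, h6⟩ := hE i hi
  refine ⟨a, b, h5, h6, fun x y hx hy hx1 hx2 hy1 hy2 n hn hxn => ?_⟩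
  exact ((h1 _ _).1 hab).2.2 _ hx _ hy (code_mem_cut.2 hx1) (fun h7 => absurd
    (code_mem_cut.1 h7) (not_lt.2 hx2)) (code_mem_cut.2 hy1) (fun h7 => absurd
    (code_mem_cut.1 h7) (not_lt.2 hy2)) n hn hxn

/-- Each coordinate function is constant to the right of the generic real `r 0`. -/
theorem right_const {j : ZFSet.{0}} (hj : j ∈ J) : ∃ b : ℚ, r 0 < b ∧ ∃ n ∈ ZFSet.omega,
    ∀ x : ℝ, cut x ∈ X → r 0 < x → x ≤ b → At C h (cut x) j n := by
  have hM := hg.zf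
  have hB := hM.base
  have hom := hM.infinity
  have hlt := hg.lt_mem
  have hd := hg.cut_mem 0
  have hjM : j ∈ M := hM.trans _ hJM _ hj
  obtain ⟨E, hE⟩ := loc_const hg hXM hJM hCM hhM hX he hj
  have hT : ((r '' (E : Set ℕ)) \ {r 0}).Finite := ((E.finite_toSet).image r).sdiff
  obtain ⟨a0, b0, h1, h2, h3⟩ := exists_avoid hT (x := r 0) (fun h => h.2 rfl)
  obtain ⟨b, hb1, hb2⟩ := exists_rat_btwn h2
  have hbX := rat_mem hg hX b
  have hcb : code b ∈ M := hM.nat_mem _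
  obtain ⟨n, hn, hbn⟩ := at_total he hbX hj
  have hnM : n ∈ M := hM.trans _ hom _ hn
  refine ⟨b, hb1, n, hn, ?_⟩
  -- the bad rationals
  have hS := hM.sep_mem (Q := fun u => u ∈ cut (r 0) ∨ ∃ x ∈ X, u ∈ x ∧ (¬ code b ∈ x) ∧
      ¬ ∀ f ∈ C, pair x f ∈ h → pair j n ∈ f) (by
    (repeat' first
      | assumption
      | exact DfnF.proj _
      | exact DfnF.const (by assumption)
      | apply Dfn.not | apply Dfn.and | apply Dfn.or | apply Dfn.imp | apply Dfn.iff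
      | apply hB.bex | apply hB.ball | apply Dfn.ex | apply Dfn.all
      | apply Dfn.eq | apply Dfn.mem | apply hB.pair')) hom
  set S := ZFSet.sep (fun u => u ∈ cut (r 0) ∨ ∃ x ∈ X, u ∈ x ∧ (¬ code b ∈ x) ∧
      ¬ ∀ f ∈ C, pair x f ∈ h → pair j n ∈ f) ZFSet.omega with hSdef
  have hmem : ∀ q : ℚ, code q ∈ S ↔ (q : ℝ) < r 0 ∨ ∃ x : ℝ, cut x ∈ X ∧ (q : ℝ) < x ∧ x ≤ b ∧
      ¬ At C h (cut x) j n := by
    intro q
    rw [hSdef, ZFSet.mem_sep]
    constructor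
    · rintro ⟨-, h4 | ⟨x, hx, h5, h6, h7⟩⟩
      · exact Or.inl (code_mem_cut.1 h4)
      · obtain ⟨-, x, rfl, -⟩ := (hX x).1 hx
        exact Or.inr ⟨x, hx, code_mem_cut.1 h5, not_lt.1 fun h8 => h6 (code_mem_cut.2 h8), h7⟩
    · rintro (h4 | ⟨x, hx, h5, h6, h7⟩)
      · exact ⟨code_mem_omega q, Or.inl (code_mem_cut.2 h4)⟩
      · exact ⟨code_mem_omega q, Or.inr ⟨cut x, hx, code_mem_cut.2 h5, fun h8 =>
          absurd (code_mem_cut.1 h8) (not_lt.2 h6), h7⟩⟩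
  have hSC : IsC S := by
    obtain ⟨p, hp⟩ := exists_rat_lt (r 0)
    refine ⟨⟨code p, code_mem_omega p, (hmem p).2 (Or.inl hp)⟩,
      ⟨code b, code_mem_omega b, fun h4 => ?_⟩, ?_, ?_⟩
    · rcases (hmem b).1 h4 with h5 | ⟨x, -, h5, h6, -⟩
      · exact lt_irrefl _ (h5.trans hb1)
      · exact absurd h6 (not_le.2 h5)
    · intro u hu v hv huv
      obtain ⟨s, rfl⟩ := exists_code (ZFSet.mem_sep.1 hu).1
      obtain ⟨t, rfl⟩ := exists_code hv
      have hts : (t : ℝ) < s := by exact_mod_cast pair_mem_ltQ.1 huv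
      refine (hmem t).2 ?_
      rcases (hmem s).1 hu with h5 | ⟨x, hx, h5, h6⟩
      · exact Or.inl (hts.trans h5)
      · exact Or.inr ⟨x, hx, hts.trans h5, h6⟩
    · intro u hu
      obtain ⟨s, rfl⟩ := exists_code (ZFSet.mem_sep.1 hu).1
      rcases (hmem s).1 hu with h5 | ⟨x, hx, h5, h6⟩
      · obtain ⟨t, h7, h8⟩ := exists_rat_btwn h5
        exact ⟨code t, (hmem t).2 (Or.inl h8), pair_mem_ltQ.2 (by exact_mod_cast h7)⟩
      · obtain ⟨t, h7, h8⟩ := exists_rat_btwn h5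
        exact ⟨code t, (hmem t).2 (Or.inr ⟨x, hx, h8, h6⟩), pair_mem_ltQ.2 (by exact_mod_cast h7)⟩
  obtain ⟨s, hs⟩ := (isC_iff (c := S) fun z hz => (ZFSet.mem_sep.1 hz).1).1 hSC
  have hmem' : ∀ q : ℚ, (q : ℝ) < s ↔ (q : ℝ) < r 0 ∨ ∃ x : ℝ, cut x ∈ X ∧ (q : ℝ) < x ∧ x ≤ b ∧
      ¬ At C h (cut x) j n := by
    intro q
    rw [← hmem, hs, code_mem_cut]
  have hds : r 0 ≤ s := by
    by_contra hc
    obtain ⟨q, hq1, hq2⟩ := exists_rat_btwn (not_le.1 hc)
    exact absurd ((hmem' q).2 (Or.inl hq2)) (not_lt.2 hq1.le)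
  have hsb : s ≤ b := by
    by_contra hc
    rcases (hmem' b).1 (not_le.1 hc) with h5 | ⟨x, -, h5, h6, -⟩
    · exact lt_irrefl _ (h5.trans hb1)
    · exact absurd h6 (not_le.2 h5)
  -- points to the right of `s` are good
  have hgood : ∀ x : ℝ, cut x ∈ X → s < x → x ≤ b → At C h (cut x) j n := by
    intro x hx h5 h6
    by_contra h7
    obtain ⟨q, hq1, hq2⟩ := exists_rat_btwn h5
    exact absurd ((hmem' q).2 (Or.inr ⟨x, hx, hq2, h6, h7⟩)) (not_lt.2 hq1.le)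
  rcases hds.eq_or_lt with h5 | h5
  · intro x hx h6 h7
    exact hgood x hx (h5 ▸ h6) h7
  exfalso
  -- an interval around `s` on which the coordinate function is constant
  obtain ⟨a1, b1, h6, h7, h8⟩ : ∃ a1 b1 : ℚ, (a1 : ℝ) < s ∧ s < b1 ∧ ∀ x y : ℝ, cut x ∈ X →
      cut y ∈ X → (a1 : ℝ) < x → x < b1 → (a1 : ℝ) < y → y < b1 → At C h (cut x) j n →
        At C h (cut y) j n := by
    by_cases hsX : cut s ∈ X
    · obtain ⟨m, hm, hsm⟩ := at_total he hsX hj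
      obtain ⟨a1, b1, h6, h7, h8⟩ := at_cont hg hXM hJM hCM hhM he hj (hM.trans _ hom _ hm) hsX hsm
      refine ⟨a1, b1, h6, h7, fun x y hx hy h9 h10 h11 h12 h13 => ?_⟩
      have e1 := at_unique he hx hj (h8 x hx h9 h10) h13
      have e2 := h8 y hy h11 h12
      rw [e1] at e2
      exact e2
    · obtain ⟨i, hi⟩ : ∃ i, s = r i := by
        by_contra hc
        push Not at hc
        exact hsX ((hX _).2 ⟨hs ▸ hS, s, rfl, hc⟩)
      have hiE : i ∉ E := by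
        intro hiE
        refine h3 (r i) ⟨⟨i, hiE, rfl⟩, fun h9 => ?_⟩ ⟨?_, ?_⟩
        · rw [← hi] at h9
          exact h5.ne (Set.mem_singleton_iff.1 h9).symm
        · rw [← hi]
          exact h1.trans h5
        · rw [← hi]
          exact hsb.trans_lt hb2
      obtain ⟨a1, b1, h6, h7, h8⟩ := hE i hiE
      rw [← hi] at h6 h7
      exact ⟨a1, b1, h6, h7, fun x y hx hy h9 h10 h11 h12 h13 =>
        h8 x y hx hy h9 h10.le h11 h12.le n hn h13⟩
  -- a good point in the interval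
  obtain ⟨y, hy, h9, h10, h11⟩ : ∃ y : ℝ, cut y ∈ X ∧ (a1 : ℝ) < y ∧ y < b1 ∧
      At C h (cut y) j n := by
    rcases hsb.eq_or_lt with h9 | h9
    · exact ⟨b, hbX, h9 ▸ h6, h9 ▸ h7, hbn⟩
    · obtain ⟨q, hq1, hq2⟩ := exists_rat_btwn (lt_min h9 h7)
      rw [lt_min_iff] at hq2
      exact ⟨q, rat_mem hg hX q, h6.trans hq1, hq2.2, hgood q (rat_mem hg hX q) hq1 hq2.1.le⟩
  obtain ⟨q, hq1, hq2⟩ := exists_rat_btwn (max_lt h6 h5)
  rw [max_lt_iff] at hq1
  rcases (hmem' q).1 hq2 with h12 | ⟨x, hx, h12, h13, h14⟩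
  · exact lt_irrefl _ (h12.trans hq1.2)
  · rcases lt_or_ge x b1 with h15 | h15
    · exact h14 (h8 y x hy hx h9 h10 (hq1.1.trans h12) h15 h11)
    · exact h14 (hgood x hx (h7.trans_le h15) h13)

/-- The space is not N-compact. -/
theorem no_emb : False := by
  have hM := hg.zf
  have hB := hM.base
  have hom := hM.infinity
  have hlt := hg.lt_mem
  have hd := hg.cut_mem 0
  -- the limit
  obtain ⟨φ, hφ, hφ1, hφ2⟩ := hM.rel_mem hJM hM.infinity
    (Q := fun j n => ∃ v ∈ ZFSet.omega, (¬ v ∈ cut (r 0)) ∧ ∀ x ∈ X, cut (r 0) ⊆ x → (¬ v ∈ x) →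
      ∀ f ∈ C, pair x f ∈ h → pair j n ∈ f) (by
    (repeat' first
      | assumption
      | exact DfnF.proj _
      | exact DfnF.const (by assumption)
      | apply Dfn.not | apply Dfn.and | apply Dfn.or | apply Dfn.imp | apply Dfn.iff
      | apply hB.bex | apply hB.subset' | apply hB.ball | apply Dfn.ex | apply Dfn.all
      | apply Dfn.eq | apply Dfn.mem | apply hB.pair'))
  have hφ3 : ∀ j ∈ J, ∀ n, pair j n ∈ φ ↔ n ∈ ZFSet.omega ∧ ∃ b : ℚ, r 0 < b ∧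
      ∀ x : ℝ, cut x ∈ X → r 0 < x → x ≤ b → At C h (cut x) j n := by
    intro j hj n
    rw [hφ2]
    constructor
    · rintro ⟨-, hn, v, hv, h1, h2⟩
      obtain ⟨b, rfl⟩ := exists_code hv
      refine ⟨hn, b, ?_, fun x hx h3 h4 => h2 _ hx (cut_subset_cut.2 h3.le) fun h5 =>
        absurd (code_mem_cut.1 h5) (not_lt.2 h4)⟩
      rw [code_mem_cut, not_lt] at h1
      exact lt_of_le_of_ne h1 fun h3 => hg.irr 0 ⟨b, h3.symm⟩
    · rintro ⟨hn, b, h1, h2⟩
      refine ⟨hj, hn, code b, code_mem_omega b, fun h3 => absurd (code_mem_cut.1 h3)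
        (not_lt.2 h1.le), fun x hx h3 h4 => ?_⟩
      obtain ⟨-, x, rfl, hx'⟩ := (hX x).1 hx
      rw [cut_subset_cut] at h3
      exact h2 x hx (lt_of_le_of_ne h3 (hx' 0).symm) (not_lt.1 fun h5 => h4 (code_mem_cut.2 h5))
  have huniq : ∀ j ∈ J, ∀ n m, pair j n ∈ φ → pair j m ∈ φ → n = m := by
    intro j hj n m h1 h2
    obtain ⟨-, b, h3, h4⟩ := (hφ3 j hj n).1 h1
    obtain ⟨-, b', h5, h6⟩ := (hφ3 j hj m).1 h2
    obtain ⟨q, hq1, hq2⟩ := exists_rat_btwn (lt_min h3 h5)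
    rw [lt_min_iff] at hq2
    exact at_unique he (rat_mem hg hX q) hj (h4 q (rat_mem hg hX q) hq1 hq2.1.le)
      (h6 q (rat_mem hg hX q) hq1 hq2.2.le)
  have hex : ∀ j ∈ J, ∃ n, pair j n ∈ φ := by
    intro j hj
    obtain ⟨b, h1, n, hn, h2⟩ := right_const hg hXM hJM hCM hhM hX he hj
    exact ⟨n, (hφ3 j hj n).2 ⟨hn, b, h1, h2⟩⟩
  have hfun : ZFSet.IsFunc J ZFSet.omega φ := by
    refine ⟨hφ1, fun j hj => ?_⟩
    obtain ⟨n, hn⟩ := hex j hj
    exact ⟨n, hn, fun m hm => huniq j hj m n hm hn⟩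
  -- close to `r 0` finitely many coordinates have their limit values
  have hnear : ∀ F : ZFSet.{0}, F ⊆ J → FinIn M F → ∀ c : ℝ, r 0 < c → ∃ q : ℚ, r 0 < q ∧
      (q : ℝ) < c ∧ ∀ f, pair (cut (q : ℝ)) f ∈ h → ∀ j ∈ F, ∀ n, pair j n ∈ φ ↔ pair j n ∈ f := by
    intro F hF hfin c hc
    have h1 : ∀ j, j ∈ F → ∃ b : ℚ, r 0 < b ∧ ∃ n, pair j n ∈ φ ∧
        ∀ x : ℝ, cut x ∈ X → r 0 < x → x ≤ b → At C h (cut x) j n := by
      intro j hj
      obtain ⟨n, hn⟩ := hex j (hF hj)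
      obtain ⟨-, b, h2, h3⟩ := (hφ3 j (hF hj) n).1 hn
      exact ⟨b, h2, n, hn, h3⟩
    choose! b hb1 n hn hb2 using h1
    obtain ⟨m, hm1, hm2⟩ := Order.exists_between_finsets ({r 0} : Finset ℝ)
      (insert c (hfin.finite.image fun j => (b j : ℝ)).toFinset) (by
        intro x hx y hy
        rw [Finset.mem_singleton.1 hx]
        rcases Finset.mem_insert.1 hy with rfl | hy
        · exact hc
        · rw [Set.Finite.mem_toFinset] at hy
          obtain ⟨j, hj, rfl⟩ := hy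
          exact hb1 j hj)
    obtain ⟨q, hq1, hq2⟩ := exists_rat_btwn (hm1 (r 0) (Finset.mem_singleton_self _))
    have hqX := rat_mem hg hX q
    refine ⟨q, hq1, hq2.trans (hm2 c (Finset.mem_insert_self _ _)), fun f hf j hj k => ?_⟩
    have h3 : (q : ℝ) ≤ b j := (hq2.trans (hm2 (b j) (Finset.mem_insert_of_mem
      ((Set.Finite.mem_toFinset _).2 ⟨j, hj, rfl⟩)))).le
    have h4 := hb2 j hj q hqX hq1 h3
    rw [← at_iff he hqX hf]
    constructor
    · intro h5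
      rw [huniq j (hF hj) _ _ h5 (hn j hj)]
      exact h4
    · intro h5
      rw [at_unique he hqX (hF hj) h5 h4]
      exact hn j hj
  have hφC : φ ∈ C := by
    refine he.closed φ hφ hfun fun F _ hF hfin => ?_
    obtain ⟨q, -, -, h1⟩ := hnear F hF hfin (r 0 + 1) (by linarith)
    obtain ⟨g, hgC, hgq⟩ := exists_img he (rat_mem hg hX q)
    exact ⟨g, hgC, h1 g hgq⟩
  obtain ⟨z, hz, hzφ⟩ := he.bij.2 φ hφC
  obtain ⟨-, x, rfl, hx⟩ := (hX z).1 hz
  -- an open neighbourhood of `x` that is not close to the right of `r 0`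
  obtain ⟨U, hU, hUo, hxU, c, hc, hUc⟩ : ∃ U ∈ M, OpenIn X U ∧ cut x ∈ U ∧ ∃ c : ℝ, r 0 < c ∧
      ∀ y : ℝ, cut y ∈ U → r 0 < y → c ≤ y := by
    rcases lt_or_gt_of_ne (hx 0) with h1 | h1
    · have hU := hM.sep_mem (Q := fun z => ¬ cut (r 0) ⊆ z) (by
        (repeat' first
          | assumption
          | exact DfnF.proj _
          | exact DfnF.const (by assumption)
          | apply Dfn.not | apply hB.subset')) hXM
      refine ⟨_, hU, ⟨fun w hw => (ZFSet.mem_sep.1 hw).1, fun y hy => ?_⟩,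
        ZFSet.mem_sep.2 ⟨hz, fun h2 => absurd (cut_subset_cut.1 h2) (not_le.2 h1)⟩,
        r 0 + 1, by linarith, fun y hy hy' => ?_⟩
      · obtain ⟨hyX, h2⟩ := ZFSet.mem_sep.1 hy
        rw [cut_subset_cut, not_le] at h2
        obtain ⟨l, hl⟩ := exists_rat_lt y
        obtain ⟨u, hu1, hu2⟩ := exists_rat_btwn h2
        exact ⟨l, u, hl, hu1, fun w hw _ h3 => ZFSet.mem_sep.2 ⟨hw, fun h4 =>
          absurd (cut_subset_cut.1 h4) (not_le.2 (h3.trans hu2))⟩⟩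
      · exact absurd (cut_subset_cut.2 hy'.le) (ZFSet.mem_sep.1 hy).2
    · obtain ⟨a, ha1, ha2⟩ := exists_rat_btwn h1
      have hca : code a ∈ M := hM.nat_mem _
      have hU := hM.sep_mem (Q := fun z => code a ∈ z) (by
        (repeat' first
          | assumption
          | exact DfnF.proj _
          | exact DfnF.const (by assumption)
          | apply Dfn.mem)) hXM
      refine ⟨_, hU, ⟨fun w hw => (ZFSet.mem_sep.1 hw).1, fun y hy => ?_⟩,
        ZFSet.mem_sep.2 ⟨hz, code_mem_cut.2 ha2⟩, a, ha1, fun y hy _ =>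
          (code_mem_cut.1 (ZFSet.mem_sep.1 hy).2).le⟩
      obtain ⟨hyX, h2⟩ := ZFSet.mem_sep.1 hy
      obtain ⟨u, hu⟩ := exists_rat_gt y
      exact ⟨a, u, code_mem_cut.1 h2, hu, fun w hw h3 _ => ZFSet.mem_sep.2 ⟨hw,
        code_mem_cut.2 h3⟩⟩
  obtain ⟨F, -, hF, hfin, h1⟩ := (he.top U hU hUo.1).1 hUo (cut x) hxU φ hzφ
  obtain ⟨q, hq1, hq2, h2⟩ := hnear F hF hfin c hc
  obtain ⟨g, hgC, hgq⟩ := exists_img he (rat_mem hg hX q)
  have h3 := h1 (cut (q : ℝ)) (rat_mem hg hX q) g hgq (h2 g hgq)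
  exact absurd (hUc q h3 hq1) (not_le.2 hq2)

end

end Pool.Agent.R602.CO
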