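import Pool.Agent.R602.CO.Base

/-!
# The model with a dense set of generic reals that meets every nowhere dense closed set in a finite
set
-/

set_option autoImplicit false

namespace Pool.Agent.R602.CO

open Pool.Agent.W868 Pool.Agent.W868.PName Pool.Agent.R598.SY
open ZFSet (pair)

/-- The promises in the generic filter. -/
def GG (π : Pkg Cd) : Set (ℕ × ℚ × ℚ) := {x | ∃ k, x ∈ (π.g k).s}

/-- The conditions that separate the real `i` from the rational number `q`. -/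
def dA (i : ℕ) (q : ℚ) : Set Cd := {c | ∃ a b, (i, a, b) ∈ c.s ∧ (q < a ∨ b < q)}

/-- The conditions that put some real in the interval. -/
def dB (a b : ℚ) : Set Cd := {c | ∃ j, (j, a, b) ∈ c.s}

theorem dense_dA (i : ℕ) (q : ℚ) (p : Cd) : ∃ r ≤ p, r ∈ dA i q := by
  obtain ⟨c, d, hcd, -, h⟩ := p.exists_box i ∅ (by simp)
  obtain ⟨m, hm1, hm2⟩ := exists_between hcd
  by_cases hq : q < m
  · obtain ⟨r, hr, hr'⟩ := p.exists_add i hm2 fun a b hab =>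
      ⟨((h a b hab).1.trans hm1).le, (h a b hab).2.le⟩
    exact ⟨r, hr, m, d, hr', Or.inl hq⟩
  · obtain ⟨m', hm3, hm4⟩ := exists_between hm1
    obtain ⟨r, hr, hr'⟩ := p.exists_add i hm3 fun a b hab =>
      ⟨(h a b hab).1.le, ((hm4.trans hm2).trans (h a b hab).2).le⟩
    exact ⟨r, hr, c, m', hr', Or.inr (hm4.trans_le (not_lt.1 hq))⟩

theorem dense_dB {a b : ℚ} (hab : a < b) (p : Cd) : ∃ r ≤ p, r ∈ dB a b := by
  obtain ⟨j, -, hj⟩ := p.exists_fresh ∅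
  obtain ⟨r, hr, hr'⟩ := p.exists_add j hab fun c d hcd => absurd hcd (hj _)
  exact ⟨r, hr, j, hr'⟩

section

variable {π : Pkg Cd}

theorem gg_co {i : ℕ} {a b c d : ℚ} (h1 : (i, a, b) ∈ GG π) (h2 : (i, c, d) ∈ GG π) : a < d := by
  obtain ⟨k, hk⟩ := h1
  obtain ⟨l, hl⟩ := h2
  exact (π.g (max k l)).co i a b c d (π.g_le_left k l hk) (π.g_le_right k l hl)

variable (he : (emp : PName Cd) ∈ π.N) (hA : ∀ i q, nmA (dA i q) ∈ π.N)
  (hB : ∀ a b, nmA (dB a b) ∈ π.N)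

include he hA in
theorem gg_dec (i : ℕ) (q : ℚ) : ∃ a b, (i, a, b) ∈ GG π ∧ (q < a ∨ b < q) := by
  obtain ⟨k, c, ⟨a, b, hab, h⟩, hk⟩ := meet (hA i q) he (dense_dA i q)
  exact ⟨a, b, ⟨k, hk hab⟩, h⟩

include he hB in
theorem gg_dense {a b : ℚ} (hab : a < b) : ∃ j, (j, a, b) ∈ GG π := by
  obtain ⟨k, c, ⟨j, hj⟩, hk⟩ := meet (hB a b) he (dense_dB hab)
  exact ⟨j, k, hk hj⟩

include he hA in
/-- The generic real. -/
theorem exists_real (i : ℕ) : ∃ r : ℝ, ∀ a b, (i, a, b) ∈ GG π → (a : ℝ) < r ∧ r < b := by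
  have hdec := gg_dec he hA
  obtain ⟨a0, b0, h0, -⟩ := hdec i 0
  set S : Set ℝ := {x | ∃ a b, (i, a, b) ∈ GG π ∧ x = (a : ℝ)} with hS
  have hne : S.Nonempty := ⟨a0, a0, b0, h0, rfl⟩
  have hup : ∀ a b, (i, a, b) ∈ GG π → (b : ℝ) ∈ upperBounds S := by
    rintro a b hab x ⟨c, d, hcd, rfl⟩
    exact_mod_cast (gg_co hcd hab).le
  refine ⟨sSup S, fun a b hab => ⟨?_, ?_⟩⟩
  · obtain ⟨c, d, hcd, h | h⟩ := hdec i a
    · have h1 : (c : ℝ) ≤ sSup S := le_csSup ⟨b, hup a b hab⟩ ⟨c, d, hcd, rfl⟩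
      have h2 : (a : ℝ) < c := by exact_mod_cast h
      exact h2.trans_le h1
    · exact absurd (gg_co hab hcd) (not_lt.2 h.le)
  · obtain ⟨c, d, hcd, h | h⟩ := hdec i b
    · exact absurd (gg_co hcd hab) (not_lt.2 h.le)
    · have h1 : sSup S ≤ d := csSup_le hne (hup c d hcd)
      have h2 : (d : ℝ) < b := by exact_mod_cast h
      exact h1.trans_lt h2

include he hA in
theorem val_cN {i : ℕ} {r : ℝ} (hr : ∀ a b, (i, a, b) ∈ GG π → (a : ℝ) < r ∧ r < b) :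
    π.val (cN i) = cut r := by
  ext z
  rw [π.mem_val, mem_cut]
  constructor
  · rintro ⟨y, hy, c, hc, ⟨n, hn⟩, rfl⟩
    obtain ⟨q, a, b, hqa, hab, rfl, rfl⟩ := el_cN.1 hc
    refine ⟨q, ?_, π.hat_nat _⟩
    have h1 := (hr a b ⟨n, le_sg.1 hn⟩).1
    have h2 : (q : ℝ) ≤ a := by exact_mod_cast hqa
    exact h2.trans_lt h1
  · rintro ⟨q, hq, rfl⟩
    obtain ⟨a, b, hab, h | h⟩ := gg_dec he hA i q
    · obtain ⟨n, hn⟩ := hab
      have h1 : a < b := (π.g n).co _ _ _ _ _ hn hn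
      exact ⟨check (code q), π.nat_Z _, sg i a b h1, el_cN.2 ⟨q, a, b, h.le, h1, rfl, rfl⟩,
        ⟨n, le_sg.2 hn⟩, π.hat_nat _⟩
    · have h1 := (hr a b hab).2
      have h2 : (b : ℝ) < q := by exact_mod_cast h
      exact absurd (h1.trans h2) (not_lt.2 hq.le)

/-- The main lemma. -/
theorem grab {i : ℕ} (hIN : IN i ∈ π.N) {t : PName Cd} (ht : t ∈ π.N) {E : Finset ℕ}
    (hfix : sys.Fix (fixE E) t) (hi : i ∉ E)
    (h : ∀ c d : ℚ, c < d → ∃ a b, c ≤ a ∧ a < b ∧ b ≤ d ∧ pair (code a) (code b) ∈ π.val t) :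
    ∃ a b a' b', pair (code a) (code b) ∈ π.val t ∧ a ≤ a' ∧ b' ≤ b ∧ (i, a', b') ∈ GG π := by
  have hc : ∀ q, check (code q) ∈ π.N := fun q => π.nat_Z _
  have hc' : ∀ q, π.val (check (code q)) = code q := fun q => π.hat_nat _
  obtain ⟨k, h1, h2⟩ := π.gen ⟨0, .ex (.and (.mem (Sum.inl 0) (Sum.inr t))
    (.mem (Sum.inl 0) (Sum.inr (IN i)))), Fin.elim0, ⊤⟩
    ⟨⟨⟨TOver.inl _, tOver_inr.2 ht⟩, ⟨TOver.inl _, tOver_inr.2 hIN⟩⟩, fun i => i.elim0⟩
  rcases h1 with h1 | h1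
  · obtain ⟨x, hx, h3, h4⟩ := h2 h1
    have h5 : π.val x ∈ π.val t := (π.val_mem_iff hx ht).2 ⟨k, h3⟩
    have h6 : π.val x ∈ π.val (IN i) := (π.val_mem_iff hx hIN).2 ⟨k, h4⟩
    obtain ⟨y, hy, c, hyc, ⟨n, hn⟩, hyx⟩ := π.mem_val.1 h6
    obtain ⟨a, b, a', b', haa, ⟨hab, hbb, rfl⟩, rfl⟩ := el_IN.1 hyc
    rw [π.val_opN (hc a) (hc b), hc', hc'] at hyx
    rw [← hyx] at h5
    exact ⟨a, b, a', b', h5, haa, hbb, n, le_sg.1 hn⟩
  · exfalso
    obtain ⟨c, d, hcd, -, hbox⟩ := (π.g k).exists_box i ∅ (by simp)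
    obtain ⟨a, b, hca, hab, hbd, hmem⟩ := h c d hcd
    rw [← hc' a, ← hc' b, ← π.val_opN (hc a) (hc b),
      π.val_mem_iff (π.opN_mem (hc a) (hc b)) ht] at hmem
    obtain ⟨m, hm⟩ := hmem
    have hm2 : Fmem (opN (check (code a)) (check (code b))) t (π.g (max k m)) :=
      hm.mono (π.g_le_right k m)
    obtain ⟨j, hjE, hj⟩ := (π.g (max k m)).exists_fresh (insert i E)
    have hij : i ≠ j := by
      rintro rfl
      exact hjE (Finset.mem_insert_self _ _)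
    obtain ⟨r, hr1, hr2, hr3⟩ := compat (π.g_le_left k m) hij hj hab fun a' b' hab' =>
      ⟨((hbox a' b' hab').1.trans_le hca).le, hbd.trans (hbox a' b' hab').2.le⟩
    have hsw : Equiv.swap i j ∈ fixE E := by
      intro l hl
      refine Equiv.swap_apply_of_ne_of_ne ?_ ?_
      · rintro rfl
        exact hi hl
      · rintro rfl
        exact hjE (Finset.mem_insert_of_mem hl)
    have h3 := fmem_act' (e := sys.ac (Equiv.swap i j)) hm2
    have e1 : act (sys.ac (Equiv.swap i j)) (opN (check (code a)) (check (code b))) =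
        opN (check (code a)) (check (code b)) := by
      have h0 := sys.top (Equiv.swap i j)
      exact (act_opN h0 _ _).trans (by rw [act_check h0, act_check h0])
    rw [e1] at h3
    have h4 : Fmem (opN (check (code a)) (check (code b))) t r :=
      fmem_congr (Feq.refl _ _) (hfix _ hsw r) (h3.mono hr2)
    refine h1 r hr1 fun q hq => ⟨q, le_rfl, opN (check (code a)) (check (code b)), ?_, ?_⟩
    · exact h4.mono hq
    · refine fmem_iff.2 fun q' hq' => ⟨q', le_rfl, _, sg i a b hab,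
        el_IN.2 ⟨a, b, a, b, le_rfl, ⟨hab, le_rfl, rfl⟩, rfl⟩, ?_, Feq.refl _ _⟩
      exact le_sg.2 ((hq'.trans hq) hr3)

end

end Pool.Agent.R602.CO
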