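import Pool.Agent.R602.CO.Model

/-!
# The real line of a transitive model of ZF

A real number `x` is in the model `M` if its Dedekind cut `cut x` is an element of `M`. A set of
real numbers of `M` is represented by the set of the cuts of its elements. All definitions below
are the usual definitions, evaluated in `M`.
-/

set_option autoImplicit false

namespace Pool.Agent.R602.CO

open Pool.Agent.W868
open ZFSet (pair)

/-! ### Definitions -/

/-- The elements of `S` are (Dedekind cuts of) real numbers. -/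
def IsRealSet (S : ZFSet.{0}) : Prop := ∀ z ∈ S, ∃ x : ℝ, z = cut x

/-- `U` is an open subset of the subspace `S` of the real line. -/
def OpenIn (S U : ZFSet.{0}) : Prop :=
  U ⊆ S ∧ ∀ x : ℝ, cut x ∈ U → ∃ a b : ℚ, (a : ℝ) < x ∧ x < b ∧
    ∀ y : ℝ, cut y ∈ S → (a : ℝ) < y → y < b → cut y ∈ U

/-- `F` is a closed subset of the subspace `S` of the real line. -/
def ClosedIn (S F : ZFSet.{0}) : Prop := F ⊆ S ∧ OpenIn S (S \ F)

/-- The set `Y` is finite in `M`: `M` has a bijection between `Y` and a natural number. -/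
def FinIn (M : Set ZFSet.{0}) (Y : ZFSet.{0}) : Prop := ∃ n : ℕ, ∃ f ∈ M, IsBij Y (nat n) f

/-- In `M`, the subspace `K` of the real line is compact: each cover of `K` (in `M`) by open
subsets of `K` has a finite subcover. -/
def CompactIn (M : Set ZFSet.{0}) (K : ZFSet.{0}) : Prop :=
  ∀ C ∈ M, (∀ U ∈ C, OpenIn K U) → (∀ x ∈ K, ∃ U ∈ C, x ∈ U) →
    ∃ D ∈ M, D ⊆ C ∧ FinIn M D ∧ ∀ x ∈ K, ∃ U ∈ D, x ∈ U

/-- In `M`, the subspace `X` of the real line is a k-space: a subset `A` of `X` is closed in `X` if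
`A ∩ K` is closed in `K` for each compact `K ⊆ X`. -/
def KSpaceIn (M : Set ZFSet.{0}) (X : ZFSet.{0}) : Prop :=
  ∀ A ∈ M, A ⊆ X → (∀ K ∈ M, K ⊆ X → CompactIn M K → ClosedIn K (A ∩ K)) → ClosedIn X A

/-! ### Real numbers in the model -/

/-- `c` is a Dedekind cut. -/
def IsC (c : ZFSet.{0}) : Prop :=
  (∃ u ∈ ZFSet.omega, u ∈ c) ∧ (∃ u ∈ ZFSet.omega, ¬ u ∈ c) ∧
    (∀ u ∈ c, ∀ v ∈ ZFSet.omega, pair v u ∈ ltQ → v ∈ c) ∧ ∀ u ∈ c, ∃ v ∈ c, pair u v ∈ ltQ

/-- `c` is the cut of an irrational number. -/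
def IsI (c : ZFSet.{0}) : Prop :=
  ∀ u ∈ ZFSet.omega, ¬ u ∈ c → ∃ v ∈ ZFSet.omega, (¬ v ∈ c) ∧ pair v u ∈ ltQ

theorem cut_subset (x : ℝ) : cut x ⊆ ZFSet.omega := fun _ h => (ZFSet.mem_sep.1 h).1

theorem isC_iff {c : ZFSet.{0}} (hc : c ⊆ ZFSet.omega) : IsC c ↔ ∃ x : ℝ, c = cut x := by
  constructor
  · rintro ⟨⟨u, hu, huc⟩, ⟨v, hv, hvc⟩, h3, h4⟩
    obtain ⟨p, rfl⟩ := exists_code hu
    obtain ⟨q, rfl⟩ := exists_code hv
    set S : Set ℝ := {x | ∃ t : ℚ, code t ∈ c ∧ x = (t : ℝ)} with hS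
    have hdown : ∀ s t : ℚ, code t ∈ c → s < t → code s ∈ c := fun s t ht hst =>
      h3 _ ht _ (code_mem_omega s) (pair_mem_ltQ.2 hst)
    have hup : ∀ t : ℚ, code t ∉ c → (t : ℝ) ∈ upperBounds S := by
      rintro t ht x ⟨s, hs, rfl⟩
      by_contra hlt
      rw [not_le] at hlt
      exact ht (hdown t s hs (by exact_mod_cast hlt))
    have hne : S.Nonempty := ⟨p, p, huc, rfl⟩
    refine ⟨sSup S, ?_⟩
    ext z
    rw [mem_cut]
    constructor
    · intro hz
      obtain ⟨t, rfl⟩ := exists_code (hc hz)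
      obtain ⟨w, hw, hlt⟩ := h4 _ hz
      obtain ⟨s, rfl⟩ := exists_code (hc hw)
      rw [pair_mem_ltQ] at hlt
      refine ⟨t, ?_, rfl⟩
      have h5 : (s : ℝ) ≤ sSup S := le_csSup ⟨q, hup q hvc⟩ ⟨s, hw, rfl⟩
      have h6 : (t : ℝ) < s := by exact_mod_cast hlt
      exact h6.trans_le h5
    · rintro ⟨t, ht, rfl⟩
      by_contra hn
      exact absurd (csSup_le hne (hup t hn)) (not_le.2 ht)
  · rintro ⟨x, rfl⟩
    obtain ⟨p, hp⟩ := exists_rat_lt x
    obtain ⟨q, hq⟩ := exists_rat_gt x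
    refine ⟨⟨code p, code_mem_omega p, code_mem_cut.2 hp⟩, ⟨code q, code_mem_omega q, fun h =>
      absurd (code_mem_cut.1 h) (not_lt.2 hq.le)⟩, ?_, ?_⟩
    · intro u hu v hv huv
      obtain ⟨s, hs, rfl⟩ := mem_cut.1 hu
      obtain ⟨t, rfl⟩ := exists_code hv
      have h1 : (t : ℝ) < s := by exact_mod_cast pair_mem_ltQ.1 huv
      exact code_mem_cut.2 (h1.trans hs)
    · intro u hu
      obtain ⟨s, hs, rfl⟩ := mem_cut.1 hu
      obtain ⟨t, h1, h2⟩ := exists_rat_btwn hs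
      exact ⟨code t, code_mem_cut.2 h2, pair_mem_ltQ.2 (by exact_mod_cast h1)⟩

theorem isI_iff {x : ℝ} : IsI (cut x) ↔ Irrational x := by
  constructor
  · rintro h ⟨q, rfl⟩
    obtain ⟨v, hv, hvc, hlt⟩ := h (code q) (code_mem_omega q) fun h1 =>
      lt_irrefl _ (code_mem_cut.1 h1)
    obtain ⟨t, rfl⟩ := exists_code hv
    exact hvc (code_mem_cut.2 (by exact_mod_cast pair_mem_ltQ.1 hlt))
  · intro hx u hu huc
    obtain ⟨q, rfl⟩ := exists_code hu
    have h1 : x < q := by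
      rcases lt_trichotomy x q with h | h | h
      · exact h
      · exact absurd ⟨q, h.symm⟩ hx
      · exact absurd (code_mem_cut.2 h) huc
    obtain ⟨t, h2, h3⟩ := exists_rat_btwn h1
    exact ⟨code t, code_mem_omega t, fun h4 => absurd (code_mem_cut.1 h4) (not_lt.2 h2.le),
      pair_mem_ltQ.2 (by exact_mod_cast h3)⟩

section

variable {M : Set ZFSet.{0}} (hM : IsZF M) (hlt : ltQ ∈ M)

include hM hlt

/-- The set of the real numbers of `M`. -/
theorem reals_mem : ∃ R ∈ M, ∀ z, z ∈ R ↔ z ∈ M ∧ ∃ x : ℝ, z = cut x := by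
  obtain ⟨Pw, hPw, hPw'⟩ := hM.power _ hM.infinity
  have hB := hM.base
  have hom := hM.infinity
  have h1 := hM.sep_mem (Q := fun c => IsC c) (by
    unfold IsC
    (repeat' first
      | assumption
      | exact DfnF.proj _
      | exact DfnF.const (by assumption)
      | apply Dfn.not | apply Dfn.and | apply Dfn.or | apply Dfn.imp | apply Dfn.iff
      | apply hB.bex | apply hB.ball | apply Dfn.ex | apply Dfn.all
      | apply Dfn.eq | apply Dfn.mem | apply hB.pair')) hPw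
  refine ⟨_, h1, fun z => ?_⟩
  rw [ZFSet.mem_sep, hPw']
  constructor
  · rintro ⟨⟨h2, h3⟩, h4⟩
    exact ⟨h2, (isC_iff h3).1 h4⟩
  · rintro ⟨h2, x, rfl⟩
    exact ⟨⟨h2, cut_subset x⟩, (isC_iff (cut_subset x)).2 ⟨x, rfl⟩⟩

/-- The set of the irrational numbers of `M`. -/
theorem irrationals_mem :
    ∃ P ∈ M, ∀ z, z ∈ P ↔ z ∈ M ∧ ∃ x : ℝ, Irrational x ∧ z = cut x := by
  obtain ⟨R, hR, hR'⟩ := reals_mem hM hlt
  have hB := hM.base
  have hom := hM.infinity
  have h1 := hM.sep_mem (Q := fun c => IsI c) (by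
    unfold IsI
    (repeat' first
      | assumption
      | exact DfnF.proj _
      | exact DfnF.const (by assumption)
      | apply Dfn.not | apply Dfn.and | apply Dfn.or | apply Dfn.imp | apply Dfn.iff
      | apply hB.bex | apply hB.ball | apply Dfn.ex | apply Dfn.all
      | apply Dfn.eq | apply Dfn.mem | apply hB.pair')) hR
  refine ⟨_, h1, fun z => ?_⟩
  rw [ZFSet.mem_sep, hR']
  constructor
  · rintro ⟨⟨h2, x, rfl⟩, h4⟩
    exact ⟨h2, x, isI_iff.1 h4, rfl⟩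
  · rintro ⟨h2, x, hx, rfl⟩
    exact ⟨⟨h2, x, rfl⟩, isI_iff.2 hx⟩

end

/-! ### Finite sets -/

theorem finite_nat (n : ℕ) : {z | z ∈ nat n}.Finite := by
  induction n with
  | zero =>
    have h1 : {z | z ∈ nat 0} = ∅ := Set.eq_empty_of_forall_notMem fun z hz =>
      absurd hz (ZFSet.notMem_empty _)
    rw [h1]
    exact Set.finite_empty
  | succ n ih =>
    refine (ih.insert (nat n)).subset fun z hz => ?_
    rcases ZFSet.mem_insert_iff.1 hz with h | h
    · exact Or.inl h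
    · exact Or.inr h

theorem FinIn.finite {M : Set ZFSet.{0}} {Y : ZFSet.{0}} (h : FinIn M Y) :
    {z | z ∈ Y}.Finite := by
  obtain ⟨n, f, -, ⟨⟨⟨h1, h2⟩, h3⟩, -⟩⟩ := h
  choose! g hg hg' using h2
  refine Set.Finite.of_finite_image (f := g) ((finite_nat n).subset ?_) ?_
  · rintro _ ⟨z, hz, rfl⟩
    exact (ZFSet.pair_mem_prod.1 (h1 (hg z hz))).2
  · intro x hx y hy hxy
    have h4 := hg x hx
    have h5 := hg y hy
    rw [hxy] at h4
    exact h3 x y _ h4 h5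

/-- A rational interval around a point that avoids a finite set. -/
theorem exists_avoid {T : Set ℝ} (hT : T.Finite) {x : ℝ} (hx : x ∉ T) :
    ∃ a b : ℚ, (a : ℝ) < x ∧ x < b ∧ ∀ y ∈ T, ¬ ((a : ℝ) < y ∧ y < b) := by
  have h1 : Tᶜ ∈ nhds x := hT.isClosed.isOpen_compl.mem_nhds hx
  obtain ⟨l, u, ⟨hl, hu⟩, hlu⟩ := (mem_nhds_iff_exists_Ioo_subset).1 h1
  obtain ⟨a, ha1, ha2⟩ := exists_rat_btwn hl
  obtain ⟨b, hb1, hb2⟩ := exists_rat_btwn hu
  exact ⟨a, b, ha2, hb1, fun y hy hab => hlu ⟨ha1.trans hab.1, hab.2.trans hb2⟩ hy⟩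

end Pool.Agent.R602.CO
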